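import Pool.Agent.Q170.GB.Defs

namespace Q170.GB

open Filter Topology

/-- Non-overlapping intervals, ordered form. -/
def NO (I J : ℝ × ℝ) : Prop := I.2 ≤ J.1 ∨ J.2 ≤ I.1

lemma NO.symm {I J : ℝ × ℝ} (h : NO I J) : NO J I := h.elim Or.inr Or.inl

lemma no_iff {I J : ℝ × ℝ} (hI : I.1 < I.2) (hJ : J.1 < J.2) :
    NO I J ↔ Disjoint (Set.Ioo I.1 I.2) (Set.Ioo J.1 J.2) := by
  rw [Set.Ioo_disjoint_Ioo]
  unfold NO
  constructor
  · rintro (h | h)
    · exact (min_le_left _ _).trans (h.trans (le_max_right _ _))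
    · exact (min_le_right _ _).trans (h.trans (le_max_left _ _))
  · intro h
    rcases le_total I.2 J.2 with h2 | h2
    · rw [min_eq_left h2] at h
      rcases le_total I.1 J.1 with h1 | h1
      · rw [max_eq_right h1] at h; exact Or.inl h
      · rw [max_eq_left h1] at h; exact absurd hI (not_lt.2 h)
    · rw [min_eq_right h2] at h
      rcases le_total I.1 J.1 with h1 | h1
      · rw [max_eq_right h1] at h; exact absurd hJ (not_lt.2 h)
      · rw [max_eq_left h1] at h; exact Or.inr h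

/-- The interval lies in `[a,b]`. -/
def In (a b : ℝ) (I : ℝ × ℝ) : Prop := a ≤ I.1 ∧ I.1 < I.2 ∧ I.2 ≤ b

/-- the height of `f` on an interval -/
noncomputable def ht (f : ℝ → ℝ) (I : ℝ × ℝ) : ℝ := |f I.2 - f I.1|

lemma ht_nonneg (f : ℝ → ℝ) (I : ℝ × ℝ) : 0 ≤ ht f I := abs_nonneg _

/-- All `w`-sums of families with heights at most `h` are at most `A`. -/
def Bd (a b : ℝ) (w : ℕ → ℝ) (f : ℝ → ℝ) (h A : ℝ) : Prop :=
  ∀ (n : ℕ) (I : ℕ → ℝ × ℝ), (∀ i < n, In a b (I i)) → (∀ i < n, ∀ j < n, i ≠ j → NO (I i) (I j)) →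
    (∀ i < n, ht f (I i) ≤ h) → ∑ i ∈ Finset.range n, w i * ht f (I i) ≤ A

lemma le_of_strictMono {n : ℕ} (e : Fin n → ℕ) (he : StrictMono e) (k : Fin n) : (k : ℕ) ≤ e k := by
  obtain ⟨k, hk⟩ := k
  induction k with
  | zero => exact Nat.zero_le _
  | succ k ih =>
    have h1 := ih (by omega)
    have h2 : e ⟨k, by omega⟩ < e ⟨k + 1, hk⟩ := he (by simp [Fin.lt_def])
    simp only at h1 ⊢
    omega

/-- Sums with injective ranks. -/
lemma Bd.rank {a b : ℝ} {w : ℕ → ℝ} {f : ℝ → ℝ} {h A : ℝ} (hB : Bd a b w f h A)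
    (hw : Antitone w) {ι : Type*} (s : Finset ι) (I : ι → ℝ × ℝ) (r : ι → ℕ)
    (hr : Set.InjOn r s) (hI : ∀ i ∈ s, In a b (I i))
    (hN : ∀ i ∈ s, ∀ j ∈ s, i ≠ j → NO (I i) (I j)) (hh : ∀ i ∈ s, ht f (I i) ≤ h) :
    ∑ i ∈ s, w (r i) * ht f (I i) ≤ A := by
  classical
  rcases s.eq_empty_or_nonempty with rfl | ⟨i₀, hi₀⟩
  · have := hB 0 (fun _ => (0, 0)) (by simp) (by simp) (by simp)
    simpa using this
  set R := s.image r with hR
  have hcard : R.card = s.card := Finset.card_image_of_injOn hr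
  set e := R.orderEmbOfFin (rfl : R.card = R.card) with he
  have hmem : ∀ k : Fin R.card, ∃ i ∈ s, r i = e k := by
    intro k
    have : e k ∈ R := Finset.orderEmbOfFin_mem _ _ _
    simpa [hR, eq_comm] using this
  choose p hps hpe using hmem
  set J : ℕ → ℝ × ℝ := fun k => if hk : k < R.card then I (p ⟨k, hk⟩) else I i₀ with hJ
  have hJk : ∀ k (hk : k < R.card), J k = I (p ⟨k, hk⟩) := fun k hk => by simp [hJ, hk]
  have h1 := hB R.card J
    (fun k hk => by rw [hJk k hk]; exact hI _ (hps _))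
    (fun k hk l hl hkl => by
      rw [hJk k hk, hJk l hl]
      refine hN _ (hps _) _ (hps _) ?_
      intro h
      have h2 : e ⟨k, hk⟩ = e ⟨l, hl⟩ := by rw [← hpe, ← hpe, h]
      have := e.injective h2
      exact hkl (by simpa using this))
    (fun k hk => by rw [hJk k hk]; exact hh _ (hps _))
  refine le_trans ?_ h1
  have h2 : ∑ i ∈ s, w (r i) * ht f (I i) = ∑ k : Fin R.card, w (e k) * ht f (I (p k)) := by
    symm
    refine Finset.sum_bij (fun k _ => p k) (fun k _ => hps k) ?_ ?_ ?_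
    · intro k _ l _ h
      apply e.injective
      rw [← hpe, ← hpe, h]
    · intro i hi
      have : r i ∈ R := Finset.mem_image_of_mem _ hi
      have h3 : r i ∈ Set.range e := by
        rw [he, Finset.range_orderEmbOfFin]; exact this
      obtain ⟨k, hk⟩ := h3
      refine ⟨k, Finset.mem_univ _, ?_⟩
      exact hr (hps k) hi (by rw [hpe, hk])
    · intro k _
      rw [hpe]
  rw [h2, Finset.sum_range]
  refine Finset.sum_le_sum fun k _ => ?_
  rw [hJk _ k.2]
  refine mul_le_mul_of_nonneg_right (hw ?_) (ht_nonneg _ _)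
  exact le_of_strictMono e e.strictMono k

/-- Abel summation. -/
lemma abel (U x : ℕ → ℝ) (hU : U 0 = 0) (n : ℕ) :
    ∑ i ∈ Finset.range n, (U (i + 1) - U i) * x i =
      (∑ k ∈ Finset.range n, (x k - x (k + 1)) * U (k + 1)) + x n * U n := by
  induction n with
  | zero => simp [hU]
  | succ n ih =>
    rw [Finset.sum_range_succ, Finset.sum_range_succ, ih]
    ring

/-- Comparison of weighted sums through the partial sums of the weights. -/
lemma compare (u v x : ℕ → ℝ) (c : ℝ) (n : ℕ) (hx : Antitone x) (hxn : x n = 0)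
    (h : ∀ k, 1 ≤ k → k ≤ n → ∑ i ∈ Finset.range k, u i ≤ c + ∑ i ∈ Finset.range k, v i) :
    ∑ i ∈ Finset.range n, u i * x i ≤ c * x 0 + ∑ i ∈ Finset.range n, v i * x i := by
  have e1 : ∀ w : ℕ → ℝ, ∑ i ∈ Finset.range n, w i * x i =
      ∑ k ∈ Finset.range n, (x k - x (k + 1)) * ∑ i ∈ Finset.range (k + 1), w i := by
    intro w
    have := abel (fun k => ∑ i ∈ Finset.range k, w i) x (by simp) n
    simp only [Finset.sum_range_succ, add_sub_cancel_left, hxn, zero_mul, add_zero] at this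
    simp only [Finset.sum_range_succ]
    exact this
  have e2 : c * x 0 = ∑ k ∈ Finset.range n, (x k - x (k + 1)) * c := by
    rw [← Finset.sum_mul, Finset.sum_range_sub', hxn]; ring
  rw [e1 u, e1 v, e2, ← Finset.sum_add_distrib]
  refine Finset.sum_le_sum fun k hk => ?_
  rw [← mul_add]
  exact mul_le_mul_of_nonneg_left (h (k + 1) (by omega) (by
    have := Finset.mem_range.1 hk; omega)) (sub_nonneg.2 (hx (Nat.le_succ k)))

/-- Every family can be sorted by decreasing heights, and this increases the `w`-sum. -/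
lemma sorted {a b : ℝ} (f : ℝ → ℝ) (n : ℕ) (I : ℕ → ℝ × ℝ) (hI : ∀ i < n, In a b (I i))
    (hN : ∀ i < n, ∀ j < n, i ≠ j → NO (I i) (I j)) :
    ∃ J : ℕ → ℝ × ℝ, (∀ i < n, In a b (J i)) ∧ (∀ i < n, ∀ j < n, i ≠ j → NO (J i) (J j)) ∧
      (∀ i < n, ∃ j < n, J i = I j) ∧ (∀ i < n, ∀ j < n, i ≤ j → ht f (J j) ≤ ht f (J i)) ∧
      ∀ w : ℕ → ℝ, Antitone w →
        ∑ i ∈ Finset.range n, w i * ht f (I i) ≤ ∑ i ∈ Finset.range n, w i * ht f (J i) := by
  classical
  set x : Fin n → ℝ := fun i => ht f (I i) with hx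
  set σ : Equiv.Perm (Fin n) := Tuple.sort (fun i => - x i) with hσ
  have hmono : Monotone ((fun i => - x i) ∘ σ) := Tuple.monotone_sort _
  set J : ℕ → ℝ × ℝ := fun k => if hk : k < n then I (σ ⟨k, hk⟩) else (0, 0) with hJ
  have hJk : ∀ k (hk : k < n), J k = I (σ ⟨k, hk⟩) := fun k hk => by simp [hJ, hk]
  refine ⟨J, ?_, ?_, ?_, ?_, ?_⟩
  · intro i hi; rw [hJk i hi]; exact hI _ (σ _).2
  · intro i hi j hj hij
    rw [hJk i hi, hJk j hj]
    refine hN _ (σ _).2 _ (σ _).2 ?_
    intro h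
    have := σ.injective (Fin.ext h)
    exact hij (by simpa using this)
  · intro i hi; exact ⟨_, (σ ⟨i, hi⟩).2, hJk i hi⟩
  · intro i hi j hj hij
    rw [hJk i hi, hJk j hj]
    have := hmono (show (⟨i, hi⟩ : Fin n) ≤ ⟨j, hj⟩ from hij)
    simpa [hx] using this
  · intro w hw
    rw [Finset.sum_range, Finset.sum_range]
    have h1 : Monovary (fun i : Fin n => w i) (fun i => x (σ i)) := by
      intro i j hij
      refine hw ?_
      by_contra hc
      push Not at hc
      have := hmono (le_of_lt (show i < j from hc))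
      simp only [Function.comp] at this
      linarith
    have h2 := h1.sum_mul_comp_perm_le_sum_mul (σ := σ.symm)
    simp only [Equiv.apply_symm_apply] at h2
    refine h2.trans (le_of_eq ?_)
    refine Finset.sum_congr rfl fun i _ => ?_
    rw [hJk _ i.2]

/-- The mixture inequality: two families at different scales. -/
lemma mixture {a b : ℝ} {w : ℕ → ℝ} {f : ℝ → ℝ} {h A : ℝ} (hB : Bd a b w f h A)
    (hw : Antitone w) (hw0 : ∀ i, 0 ≤ w i) {n n' : ℕ} {I I' : ℕ → ℝ × ℝ}
    (hI : ∀ i < n, In a b (I i)) (hN : ∀ i < n, ∀ j < n, i ≠ j → NO (I i) (I j))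
    (hh : ∀ i < n, ht f (I i) ≤ h)
    (hI' : ∀ i < n', In a b (I' i)) (hN' : ∀ i < n', ∀ j < n', i ≠ j → NO (I' i) (I' j))
    {h' : ℝ} (hle : h' ≤ h) (hh' : ∀ i < n', ht f (I' i) ≤ h') (h'0 : 0 ≤ h') :
    ∑ i ∈ Finset.range n, w (i / 2) * ht f (I i) + ∑ j ∈ Finset.range n', w j * ht f (I' j) ≤
      2 * A + 2 * n * w 0 * h' := by
  classical
  -- one mixture for each residue `e` modulo two
  set J : ℕ → Finset ℕ := fun e =>
    (Finset.range n').filter (fun j => ∀ i < n, i % 2 = e → NO (I i) (I' j)) with hJ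
  have key : ∀ e, ∑ i ∈ (Finset.range n).filter (fun i => i % 2 = e), w (i / 2) * ht f (I i) +
      ∑ j ∈ J e, w (n + j) * ht f (I' j) ≤ A := by
    intro e
    have := hB.rank hw (((Finset.range n).filter (fun i => i % 2 = e)).disjSum (J e))
      (Sum.elim I I') (Sum.elim (fun i => i / 2) (fun j => n + j)) ?_ ?_ ?_ ?_
    · rw [Finset.sum_disjSum] at this
      simpa using this
    · rintro (i | i) hi (j | j) hj hij
      · simp at hi hj hij
        have : i = j := by omega
        rw [this]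
      · simp at hi hj hij
        omega
      · simp at hi hj hij
        omega
      · simp at hi hj hij
        rw [hij]
    · rintro (i | i) hi
      · simp at hi; exact hI i hi.1
      · simp [hJ] at hi; exact hI' i hi.1
    · rintro (i | i) hi (j | j) hj hij
      · simp at hi hj hij; exact hN i hi.1 j hj.1 hij
      · simp [hJ] at hi hj; exact hj.2 i hi.1 hi.2
      · simp [hJ] at hi hj; exact (hi.2 j hj.1 hj.2).symm
      · simp [hJ] at hi hj hij; exact hN' i hi.1 j hj.1 hij
    · rintro (i | i) hi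
      · simp at hi; exact hh i hi.1
      · simp [hJ] at hi; exact (hh' i hi.1).trans hle
  have k0 := key 0
  have k1 := key 1
  have hsplit : ∑ i ∈ Finset.range n, w (i / 2) * ht f (I i) =
      ∑ i ∈ (Finset.range n).filter (fun i => i % 2 = 0), w (i / 2) * ht f (I i) +
      ∑ i ∈ (Finset.range n).filter (fun i => i % 2 = 1), w (i / 2) * ht f (I i) := by
    rw [← Finset.sum_filter_add_sum_filter_not (Finset.range n) (fun i => i % 2 = 0)]
    congr 1
    refine Finset.sum_congr ?_ fun _ _ => rfl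
    ext i; simp
  -- the bad intervals
  set B := Finset.range n' \ (J 0 ∪ J 1) with hBdef
  have hcard : B.card ≤ n := by
    have hex : ∀ j ∈ B, ∃ i < n, (I' j).1 < (I i).2 ∧ (I i).2 < (I' j).2 := by
      intro j hj
      simp only [hBdef, hJ, Finset.mem_sdiff, Finset.mem_union, Finset.mem_filter,
        Finset.mem_range, not_or, not_and, not_forall] at hj
      obtain ⟨hj, h0, h1⟩ := hj
      obtain ⟨i, hi, hi0, hno⟩ := h0 hj
      obtain ⟨k, hk, hk1, hnok⟩ := h1 hj
      have hik : i ≠ k := by rintro rfl; omega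
      unfold NO at hno hnok
      push Not at hno hnok
      rcases hN i hi k hk hik with hc | hc
      · exact ⟨i, hi, hno.1, lt_of_le_of_lt hc hnok.2⟩
      · exact ⟨k, hk, hnok.1, lt_of_le_of_lt hc hno.2⟩
    choose! p hp using hex
    have : B.card ≤ (Finset.range n).card := by
      refine Finset.card_le_card_of_injOn p (fun j hj => by
        simpa using (hp j hj).1) ?_
      intro j hj k hk hjk
      by_contra hne
      have hj' : j < n' := by
        have := (Finset.mem_sdiff.1 hj).1; simpa using this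
      have hk' : k < n' := by
        have := (Finset.mem_sdiff.1 hk).1; simpa using this
      have h1 := (hp j hj).2
      have h2 := (hp k hk).2
      rw [hjk] at h1
      rcases hN' j hj' k hk' hne with hc | hc <;> linarith [h1.1, h1.2, h2.1, h2.2]
    simpa using this
  have hx' : ∀ j, 0 ≤ ht f (I' j) := fun j => ht_nonneg _ _
  have hun : ∑ j ∈ J 0 ∪ J 1, w (n + j) * ht f (I' j) ≤
      ∑ j ∈ J 0, w (n + j) * ht f (I' j) + ∑ j ∈ J 1, w (n + j) * ht f (I' j) := by
    rw [← Finset.sum_union_inter]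
    have : 0 ≤ ∑ j ∈ J 0 ∩ J 1, w (n + j) * ht f (I' j) :=
      Finset.sum_nonneg fun j _ => mul_nonneg (hw0 _) (hx' _)
    linarith
  have hsub : J 0 ∪ J 1 ⊆ Finset.range n' := by
    intro j hj
    simp only [hJ, Finset.mem_union, Finset.mem_filter] at hj
    rcases hj with hj | hj <;> exact hj.1
  have hdec : ∑ j ∈ Finset.range n', w j * ht f (I' j) =
      ∑ j ∈ B, w j * ht f (I' j) + ∑ j ∈ J 0 ∪ J 1, w j * ht f (I' j) := by
    rw [hBdef, Finset.sum_sdiff hsub]
  have hBsum : ∑ j ∈ B, w j * ht f (I' j) ≤ n * w 0 * h' := by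
    calc ∑ j ∈ B, w j * ht f (I' j) ≤ ∑ j ∈ B, w 0 * h' := by
          refine Finset.sum_le_sum fun j hj => ?_
          have hj' : j < n' := by
            have := (Finset.mem_sdiff.1 hj).1; simpa using this
          exact mul_le_mul (hw (Nat.zero_le _)) (hh' j hj') (hx' _) (hw0 _)
      _ = B.card * (w 0 * h') := by rw [Finset.sum_const, nsmul_eq_mul]
      _ ≤ n * (w 0 * h') := by
          refine mul_le_mul_of_nonneg_right ?_ (mul_nonneg (hw0 _) h'0)
          exact_mod_cast hcard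
      _ = n * w 0 * h' := by ring
  have hshift : ∑ j ∈ Finset.range n', (w j - w (n + j)) ≤ n * w 0 := by
    have h1 := Finset.sum_range_add w n n'
    have h2 : ∑ j ∈ Finset.range n', w j ≤ ∑ j ∈ Finset.range (n + n'), w j :=
      Finset.sum_le_sum_of_subset_of_nonneg (Finset.range_mono (by omega))
        (fun j _ _ => hw0 j)
    have h3 : ∑ j ∈ Finset.range n, w j ≤ n * w 0 := by
      calc ∑ j ∈ Finset.range n, w j ≤ ∑ _j ∈ Finset.range n, w 0 :=
            Finset.sum_le_sum fun j _ => hw (Nat.zero_le _)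
        _ = n * w 0 := by simp
    rw [Finset.sum_sub_distrib]
    linarith
  have hgood : ∑ j ∈ J 0 ∪ J 1, w j * ht f (I' j) ≤
      ∑ j ∈ J 0 ∪ J 1, w (n + j) * ht f (I' j) + n * w 0 * h' := by
    have h1 : ∑ j ∈ J 0 ∪ J 1, (w j - w (n + j)) * ht f (I' j) ≤ n * w 0 * h' := by
      calc ∑ j ∈ J 0 ∪ J 1, (w j - w (n + j)) * ht f (I' j)
          ≤ ∑ j ∈ Finset.range n', (w j - w (n + j)) * h' := by
            refine (Finset.sum_le_sum fun j hj => mul_le_mul_of_nonneg_left
              (hh' j (by simpa using hsub hj)) (sub_nonneg.2 (hw (by omega)))).trans ?_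
            exact Finset.sum_le_sum_of_subset_of_nonneg hsub fun j _ _ =>
              mul_nonneg (sub_nonneg.2 (hw (by omega))) h'0
        _ = (∑ j ∈ Finset.range n', (w j - w (n + j))) * h' := by rw [Finset.sum_mul]
        _ ≤ n * w 0 * h' := mul_le_mul_of_nonneg_right hshift h'0
    have h2 : ∑ j ∈ J 0 ∪ J 1, (w j - w (n + j)) * ht f (I' j) =
        ∑ j ∈ J 0 ∪ J 1, w j * ht f (I' j) - ∑ j ∈ J 0 ∪ J 1, w (n + j) * ht f (I' j) := by
      rw [← Finset.sum_sub_distrib]
      refine Finset.sum_congr rfl fun j _ => by ring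
    linarith
  rw [hsplit, hdec]
  linarith

end Q170.GB
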