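import Mathlib

/-!
Functions of bounded `Λ`-variation (Waterman) on a compact interval and continuity in
`Λ`-variation.
-/

namespace Q170.GB

open Filter Topology

/-- A `Λ`-sequence: a non-decreasing sequence of positive reals with divergent sum of the
reciprocals.  (The term `λ_(i+1)` of the text is `lam i`.) -/
structure IsLambdaSeq (lam : ℕ → ℝ) : Prop where
  pos : ∀ i, 0 < lam i
  mono : Monotone lam
  diverges : ¬ Summable fun i => 1 / lam i

/-- `I 0, …, I (n - 1)` are non-overlapping closed subintervals of `[a, b]`: the interval `I i` has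
the end points `(I i).1 < (I i).2`, and the interiors are pairwise disjoint. -/
def Family (a b : ℝ) (n : ℕ) (I : Fin n → ℝ × ℝ) : Prop :=
  (∀ i, a ≤ (I i).1 ∧ (I i).1 < (I i).2 ∧ (I i).2 ≤ b) ∧
    ∀ i j, i ≠ j → Disjoint (Set.Ioo (I i).1 (I i).2) (Set.Ioo (I j).1 (I j).2)

/-- The variation `V_Λ(f)` on `[a, b]`: the supremum of the sums `∑ |f(I_i)| / λ_i` over all finite
families of non-overlapping closed subintervals, in any order. -/
noncomputable def variation (a b : ℝ) (lam : ℕ → ℝ) (f : ℝ → ℝ) : ENNReal :=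
  ⨆ (n : ℕ) (I : Fin n → ℝ × ℝ) (_ : Family a b n I),
    ENNReal.ofReal (∑ i, |f (I i).2 - f (I i).1| / lam i)

/-- `f ∈ ΛBV` on `[a, b]`. -/
def LBV (a b : ℝ) (lam : ℕ → ℝ) (f : ℝ → ℝ) : Prop :=
  variation a b lam f < ⊤

/-- `f ∈ ΛBV_c` on `[a, b]`: `f ∈ ΛBV`, and the variations of `f` with respect to the sequences
`Λ_(m) = (λ_i)_(i > m)` tend to zero. -/
def LBVc (a b : ℝ) (lam : ℕ → ℝ) (f : ℝ → ℝ) : Prop :=
  LBV a b lam f ∧
    Tendsto (fun m : ℕ => variation a b (fun i => lam (i + m)) f) atTop (𝓝 0)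

/-- The sum `1/λ_1 + … + 1/λ_n`. -/
noncomputable def recSum (lam : ℕ → ℝ) (n : ℕ) : ℝ :=
  ∑ i ∈ Finset.range n, 1 / lam i

end Q170.GB
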