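import Pool.Agent.Q170.GB.Nec2

namespace Q170.GB

open Filter Topology

lemma le_variation {a b : ℝ} {lam : ℕ → ℝ} {f : ℝ → ℝ} (n : ℕ) (I : ℕ → ℝ × ℝ)
    (hI : ∀ i < n, In a b (I i)) (hN : ∀ i < n, ∀ j < n, i ≠ j → NO (I i) (I j)) :
    ENNReal.ofReal (∑ i ∈ Finset.range n, 1 / lam i * ht f (I i)) ≤ variation a b lam f := by
  have hfam : Family a b n (fun i : Fin n => I i) := by
    refine ⟨fun i => hI i i.2, fun i j hij => ?_⟩
    exact (no_iff (hI i i.2).2.1 (hI j j.2).2.1).1 (hN i i.2 j j.2 (fun h => hij (Fin.ext h)))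
  have h1 : ∑ i ∈ Finset.range n, 1 / lam i * ht f (I i) =
      ∑ i : Fin n, |f (I i).2 - f (I i).1| / lam i := by
    rw [Finset.sum_range]
    refine Finset.sum_congr rfl fun i _ => ?_
    unfold ht
    rw [one_div_mul_eq_div]
  rw [h1]
  unfold variation
  exact le_iSup_of_le n (le_iSup_of_le (fun i : Fin n => I i) (le_iSup_of_le hfam le_rfl))

lemma variation_le {a b : ℝ} {lam : ℕ → ℝ} {f : ℝ → ℝ} {A : ℝ}
    (h : ∀ (n : ℕ) (I : ℕ → ℝ × ℝ), (∀ i < n, In a b (I i)) →
      (∀ i < n, ∀ j < n, i ≠ j → NO (I i) (I j)) →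
      ∑ i ∈ Finset.range n, 1 / lam i * ht f (I i) ≤ A) :
    variation a b lam f ≤ ENNReal.ofReal A := by
  unfold variation
  refine iSup_le fun n => iSup_le fun I => iSup_le fun hfam => ENNReal.ofReal_le_ofReal ?_
  set J : ℕ → ℝ × ℝ := fun i => if hi : i < n then I ⟨i, hi⟩ else (0, 0) with hJ
  have hJi : ∀ i (hi : i < n), J i = I ⟨i, hi⟩ := fun i hi => by simp [hJ, hi]
  have h1 := h n J (fun i hi => by rw [hJi i hi]; exact hfam.1 _) (fun i hi j hj hij => by
    rw [hJi i hi, hJi j hj, no_iff (hfam.1 _).2.1 (hfam.1 _).2.1]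
    exact hfam.2 _ _ (fun h => hij (by simpa using h)))
  refine le_trans (le_of_eq ?_) h1
  rw [Finset.sum_range]
  refine Finset.sum_congr rfl fun i _ => ?_
  rw [hJi i i.2]
  unfold ht
  rw [one_div_mul_eq_div]

lemma bd_of_lt_top {a b : ℝ} {lam : ℕ → ℝ} {f : ℝ → ℝ} (h : variation a b lam f < ⊤) :
    ∃ V : ℝ, ∀ H, Bd a b (fun i => 1 / lam i) f H V := by
  refine ⟨(variation a b lam f).toReal, fun H n I hI hN _ => ?_⟩
  have h1 := le_variation (lam := lam) (f := f) n I hI hN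
  exact (ENNReal.ofReal_le_iff_le_toReal h.ne).1 h1

section seq
variable {lam : ℕ → ℝ} (hL : IsLambdaSeq lam)
include hL

lemma IsLambdaSeq.anti : Antitone (fun i => 1 / lam i) := fun i j hij =>
  one_div_le_one_div_of_le (hL.pos i) (hL.mono hij)

lemma IsLambdaSeq.ipos : ∀ i, 0 < 1 / lam i := fun i => one_div_pos.2 (hL.pos i)

lemma IsLambdaSeq.top : Tendsto (ps fun i => 1 / lam i) atTop atTop :=
  (not_summable_iff_tendsto_nat_atTop_of_nonneg (fun i => (hL.ipos i).le)).1 hL.diverges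

end seq

lemma recSum_eq (lam : ℕ → ℝ) : recSum lam = ps (fun i => 1 / lam i) := rfl

/-- Sufficiency. -/
theorem sufficient {a b : ℝ} {γ lam : ℕ → ℝ} (hγ : IsLambdaSeq γ)
    (hlam : IsLambdaSeq lam) (h1 : ∃ C : ℝ, ∀ n, recSum lam n ≤ C * recSum γ n)
    (h2 : ∀ ε > 0, ∃ δ > 0, ∃ N, ∀ n ≥ N, ε * recSum γ n ≤ recSum lam n →
      recSum γ (2 * n) ≤ (2 - δ) * recSum γ n)
    (f : ℝ → ℝ) (hf : LBV a b γ f) : LBVc a b lam f := by
  obtain ⟨C, hC⟩ := h1
  rw [recSum_eq, recSum_eq] at hC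
  rw [recSum_eq, recSum_eq] at h2
  set g : ℕ → ℝ := fun i => 1 / γ i with hg
  set l : ℕ → ℝ := fun i => 1 / lam i with hl
  have hC' : ∀ n, ps l n ≤ (max C 1) * ps g n := fun n => (hC n).trans
    (mul_le_mul_of_nonneg_right (le_max_left _ _) (ps_nonneg (fun i => (hγ.ipos i).le) n))
  have hCpos : 0 < max C 1 := lt_max_of_lt_right one_pos
  obtain ⟨V, hV⟩ := bd_of_lt_top hf
  refine ⟨?_, ?_⟩
  · unfold LBV
    refine lt_of_le_of_lt (variation_le (A := max C 1 * V) ?_) ENNReal.ofReal_lt_top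
    intro n I hI hN
    by_cases hn : n = 0
    · subst hn
      simp only [Finset.range_zero, Finset.sum_empty]
      exact mul_nonneg hCpos.le (hV 1).nonneg
    · set H := (Finset.range n).sup' ⟨0, by simpa using Nat.pos_of_ne_zero hn⟩
        (fun i => ht f (I i)) with hH
      exact (hV H).dominated hlam.anti hCpos.le hC' n I hI hN (fun i hi => by
        rw [hH]; exact Finset.le_sup' (fun i => ht f (I i)) (Finset.mem_range.2 hi))
  · rw [ENNReal.tendsto_atTop_zero]
    intro ε hε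
    by_cases hεt : ε = ⊤
    · exact ⟨0, fun _ _ => hεt ▸ le_top⟩
    obtain ⟨M, hM⟩ := shifted hγ.anti hγ.ipos hlam.anti hlam.ipos hγ.top hV hCpos hC' h2
      (ENNReal.toReal_pos hε.ne' hεt)
    refine ⟨M, fun m hm => ?_⟩
    rw [← ENNReal.ofReal_toReal hεt]
    refine variation_le fun n I hI hN => ?_
    by_cases hn : n = 0
    · subst hn
      simp
    · set H := (Finset.range n).sup' ⟨0, by simpa using Nat.pos_of_ne_zero hn⟩
        (fun i => ht f (I i)) with hH
      exact hM m hm H n I hI hN (fun i hi => by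
        rw [hH]; exact Finset.le_sup' (fun i => ht f (I i)) (Finset.mem_range.2 hi))

/-- Necessity when `1/γ_i → 0`. -/
theorem necessary_aux {a b : ℝ} (hab : a < b) {γ lam : ℕ → ℝ} (hγ : IsLambdaSeq γ)
    (hlam : IsLambdaSeq lam) (hz : Tendsto (fun i => 1 / γ i) atTop (𝓝 0))
    (hall : ∀ f : ℝ → ℝ, LBV a b γ f → LBVc a b lam f) :
    (∃ C : ℝ, ∀ n, ps (fun i => 1 / lam i) n ≤ C * ps (fun i => 1 / γ i) n) ∧
    ∀ ε > 0, ∃ δ > 0, ∃ N, ∀ n ≥ N,
      ε * ps (fun i => 1 / γ i) n ≤ ps (fun i => 1 / lam i) n →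
      ps (fun i => 1 / γ i) (2 * n) ≤ (2 - δ) * ps (fun i => 1 / γ i) n := by
  set g : ℕ → ℝ := fun i => 1 / γ i with hg
  set l : ℕ → ℝ := fun i => 1 / lam i with hl
  have hga : Antitone g := hγ.anti
  have hg0 : ∀ i, 0 ≤ g i := fun i => (hγ.ipos i).le
  have hla : Antitone l := hlam.anti
  have hl0 : ∀ i, 0 ≤ l i := fun i => (hlam.ipos i).le
  have hGtop : Tendsto (ps g) atTop atTop := hγ.top
  have hGpos : ∀ n, 1 ≤ n → 0 < ps g n := fun n hn =>
    Finset.sum_pos (fun i _ => hγ.ipos i) ⟨0, by simpa using (show 0 < n by omega)⟩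
  have hG2 : Tendsto (fun n : ℕ => (n : ℝ) / ps g n) atTop atTop := by
    have h1 := hz.cesaro
    have h2 : Tendsto (fun n : ℕ => (n : ℝ)⁻¹ * ps g n) atTop (𝓝[>] 0) := by
      refine tendsto_nhdsWithin_iff.2 ⟨h1, ?_⟩
      filter_upwards [eventually_ge_atTop 1] with n hn
      have := hGpos n hn
      have h3 : (0 : ℝ) < n := by exact_mod_cast hn
      exact mul_pos (inv_pos.2 h3) this
    have h3 := h2.inv_tendsto_nhdsGT_zero
    refine h3.congr fun n => ?_
    simp only [Pi.inv_apply, mul_inv, inv_inv, div_eq_mul_inv]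
  -- general consequence of the construction
  have main : ∀ (q : ℕ → ℝ) (n : ℕ → ℕ), (∀ k, 0 < q k) → (∀ k, q k ≤ 1) →
      (∀ k, q (k + 1) ≤ q k) → (∀ k, q k ≤ 2 * q (k + 1)) → (∀ k, 1 ≤ n k ∧ 0 < ps g (n k)) →
      (∀ k, 8 * ps g (n k) ≤ ps g (n (k + 1)) ∧
        16 * ((n k : ℝ) / ps g (n k)) ≤ (n (k + 1) : ℝ) / ps g (n (k + 1))) →
      (∀ k, q k / ps g (n k) * (ps g (n k) - n k * g (n k)) ≤ (1 / 2) ^ k) →
      ∃ f : ℝ → ℝ, LBV a b γ f ∧ ∀ k m : ℕ,
        ENNReal.ofReal (q k / ps g (n k) / 2 * (ps l (n k) - ps l m)) ≤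
          variation a b (fun i => lam (i + m)) f := by
    intro q n hq0 hq1 hq2 hq3 h1 h2 he
    have D := data_of_scales hq0 hq2 hq3 h1 h2
    refine ⟨fn a b (fun k => q k / ps g (n k)) n, ?_, ?_⟩
    · unfold LBV
      refine lt_of_le_of_lt (variation_le (A := 12) fun N I hI hN => ?_) ENNReal.ofReal_lt_top
      refine fn_bound hab D hga hg0 (fun k => ?_) he N I hI hN
      have := (h1 k).2
      change q k / ps g (n k) * ps g (n k) ≤ 1
      rw [div_mul_cancel₀ _ this.ne']
      exact hq1 k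
    · intro k m
      obtain ⟨I, hI, hN, hs⟩ := fn_family hab D hl0 k m
      exact (ENNReal.ofReal_le_ofReal hs).trans
        (le_variation (lam := fun i => lam (i + m)) (n k) I hI hN)
  refine ⟨?_, ?_⟩
  · -- the `O`-condition
    by_contra hcon
    push Not at hcon
    have hfreq : ∀ k N : ℕ, ∃ n ≥ N, 2 * 4 ^ k * ps g n ≤ ps l n := by
      intro k N
      by_contra hc
      push Not at hc
      obtain ⟨n, hn⟩ := hcon (max (2 * 4 ^ k) (ps l N / g 0))
      rcases le_or_gt N n with hNn | hNn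
      · have h1 := hc n hNn
        have h2 : 2 * 4 ^ k * ps g n ≤ max (2 * 4 ^ k) (ps l N / g 0) * ps g n :=
          mul_le_mul_of_nonneg_right (le_max_left _ _) (ps_nonneg hg0 n)
        linarith
      · rcases Nat.eq_zero_or_pos n with hn0 | hnpos
        · subst hn0
          simp [ps] at hn
        · have h1 : ps l n ≤ ps l N := ps_mono hl0 hNn.le
          have h2 : g 0 ≤ ps g n := by
            have : ps g 1 ≤ ps g n := ps_mono hg0 hnpos
            simpa [ps] using this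
          have h3 : ps l N / g 0 * ps g n ≤ max (2 * 4 ^ k) (ps l N / g 0) * ps g n :=
            mul_le_mul_of_nonneg_right (le_max_right _ _) (ps_nonneg hg0 n)
          have h4 : ps l N ≤ ps l N / g 0 * ps g n := by
            rw [div_mul_eq_mul_div, le_div_iff₀ (hγ.ipos 0)]
            exact mul_le_mul_of_nonneg_left h2 (ps_nonneg hl0 N)
          linarith
    obtain ⟨n, hn1, hn2⟩ := exists_scales hGtop hG2 (fun k n => 2 * 4 ^ k * ps g n ≤ ps l n) hfreq
    obtain ⟨f, hf, hfl⟩ := main (fun k => (1 / 2) ^ k) n (fun k => by positivity)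
      (fun k => pow_le_one₀ (by norm_num) (by norm_num))
      (fun k => by rw [pow_succ]; have : (0 : ℝ) < (1 / 2) ^ k := by positivity
                   linarith)
      (fun k => by rw [pow_succ]; linarith) (fun k => ⟨(hn1 k).1, (hn1 k).2.1⟩) hn2
      (fun k => by
        have h1 := (hn1 k).2.1
        rw [div_mul_eq_mul_div, div_le_iff₀ h1]
        apply mul_le_mul_of_nonneg_left _ (by positivity)
        have : 0 ≤ n k * g (n k) := mul_nonneg (Nat.cast_nonneg _) (hg0 _)
        linarith)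
    have h1 := (hall f hf).1
    unfold LBV at h1
    have h2 : ∀ k : ℕ, ENNReal.ofReal ((2 : ℝ) ^ k) ≤ variation a b lam f := by
      intro k
      have h3 := hfl k 0
      simp only [add_zero] at h3
      refine le_trans (ENNReal.ofReal_le_ofReal ?_) h3
      have h4 := (hn1 k).2.1
      have h5 := (hn1 k).2.2
      have h6 : ps l 0 = 0 := by simp [ps]
      rw [h6, sub_zero, div_div, div_mul_eq_mul_div, le_div_iff₀ (by positivity)]
      have h7 : (2 : ℝ) ^ k = (1 / 2) ^ k * 4 ^ k := by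
        rw [← mul_pow]; norm_num
      rw [h7]
      calc (1 / 2) ^ k * 4 ^ k * (ps g (n k) * 2) = (1 / 2) ^ k * (2 * 4 ^ k * ps g (n k)) := by ring
        _ ≤ (1 / 2) ^ k * ps l (n k) := mul_le_mul_of_nonneg_left h5 (by positivity)
    obtain ⟨k, hk⟩ := (tendsto_pow_atTop_atTop_of_one_lt (one_lt_two (α := ℝ))).eventually_gt_atTop
      (variation a b lam f).toReal |>.exists
    have h3 := (ENNReal.ofReal_le_iff_le_toReal h1.ne).1 (h2 k)
    linarith
  · -- the doubling condition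
    by_contra hcon
    push Not at hcon
    obtain ⟨ε, hε, hcon⟩ := hcon
    have hfreq : ∀ k N : ℕ, ∃ n ≥ N, ε * ps g n ≤ ps l n ∧
        (2 - (1 / 2) ^ k) * ps g n ≤ ps g (2 * n) := by
      intro k N
      obtain ⟨n, hn, h1, h2⟩ := hcon ((1 / 2) ^ k) (by positivity) N
      exact ⟨n, hn, h1, h2.le⟩
    obtain ⟨n, hn1, hn2⟩ := exists_scales hGtop hG2 (fun k n => ε * ps g n ≤ ps l n ∧
        (2 - (1 / 2) ^ k) * ps g n ≤ ps g (2 * n)) hfreq
    obtain ⟨f, hf, hfl⟩ := main (fun _ => 1) n (fun k => one_pos) (fun k => le_rfl)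
      (fun k => le_rfl) (fun k => by norm_num) (fun k => ⟨(hn1 k).1, (hn1 k).2.1⟩) hn2
      (fun k => by
        have h1 := (hn1 k).2.1
        have h2 := (hn1 k).2.2.2
        rw [div_mul_eq_mul_div, div_le_iff₀ h1]
        have h3 : ps g (2 * n k) ≤ ps g (n k) + n k * g (n k) := by
          have h4 := Finset.sum_range_add g (n k) (n k)
          have h5 : ∑ i ∈ Finset.range (n k), g (n k + i) ≤ n k * g (n k) := by
            calc ∑ i ∈ Finset.range (n k), g (n k + i) ≤ ∑ _i ∈ Finset.range (n k), g (n k) :=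
                  Finset.sum_le_sum fun i _ => hga (by omega)
              _ = n k * g (n k) := by simp
          unfold ps
          rw [two_mul]
          linarith
        linarith)
    have h1 := (hall f hf).2
    rw [ENNReal.tendsto_atTop_zero] at h1
    obtain ⟨M, hM⟩ := h1 (ENNReal.ofReal (ε / 8)) (by simpa using hε)
    have h2 := hM M le_rfl
    -- a large scale
    have h3 : Tendsto (fun k : ℕ => ps g (n k)) atTop atTop := by
      have h4 : ∀ k : ℕ, (k : ℝ) * ps g (n 0) ≤ ps g (n k) := by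
        intro k
        have h5 : ∀ k : ℕ, (8 : ℝ) ^ k * ps g (n 0) ≤ ps g (n k) := by
          intro k
          induction k with
          | zero => simp
          | succ k ih =>
            have := (hn2 k).1
            rw [pow_succ]
            linarith
        have h6 : (k : ℝ) ≤ 8 ^ k := by
          have : k < 8 ^ k := Nat.lt_pow_self (by norm_num)
          exact_mod_cast this.le
        exact (mul_le_mul_of_nonneg_right h6 (hn1 0).2.1.le).trans (h5 k)
      refine tendsto_atTop_mono h4 ?_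
      exact tendsto_natCast_atTop_atTop.atTop_mul_const (hn1 0).2.1
    obtain ⟨k, hk⟩ := (h3.eventually_ge_atTop (2 * ps l M / ε)).exists
    have h4 := (hfl k M).trans h2
    have h5 := (hn1 k).2.1
    have h6 := (hn1 k).2.2.1
    rw [ENNReal.ofReal_le_ofReal_iff (by positivity)] at h4
    rw [div_le_iff₀ hε] at hk
    have h7 : ε / 4 ≤ 1 / ps g (n k) / 2 * (ps l (n k) - ps l M) := by
      rw [div_div, one_div_mul_eq_div, le_div_iff₀ (by positivity)]
      linarith
    linarith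

/-- Necessity when `γ` is bounded. -/
theorem necessary_bdd {a b : ℝ} (hab : a < b) {γ lam : ℕ → ℝ} (hγ : IsLambdaSeq γ)
    (hlam : IsLambdaSeq lam) {ρ : ℝ} (hρ : 0 < ρ) (hρg : ∀ i, ρ ≤ 1 / γ i)
    (hall : ∀ f : ℝ → ℝ, LBV a b γ f → LBVc a b lam f) :
    (∃ C : ℝ, ∀ n, ps (fun i => 1 / lam i) n ≤ C * ps (fun i => 1 / γ i) n) ∧
    ∀ ε > 0, ∃ δ > 0, ∃ N, ∀ n ≥ N,
      ε * ps (fun i => 1 / γ i) n ≤ ps (fun i => 1 / lam i) n →
      ps (fun i => 1 / γ i) (2 * n) ≤ (2 - δ) * ps (fun i => 1 / γ i) n := by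
  set g : ℕ → ℝ := fun i => 1 / γ i with hg
  set l : ℕ → ℝ := fun i => 1 / lam i with hl
  have hga : Antitone g := hγ.anti
  have hg0 : ∀ i, 0 ≤ g i := fun i => (hγ.ipos i).le
  have hla : Antitone l := hlam.anti
  have hl0 : ∀ i, 0 ≤ l i := fun i => (hlam.ipos i).le
  have hba : 0 < b - a := by linarith
  have hG : ∀ n : ℕ, ρ * n ≤ ps g n := by
    intro n
    have : ∑ _i ∈ Finset.range n, ρ ≤ ps g n := Finset.sum_le_sum fun i _ => hρg i
    simpa [mul_comm] using this
  have hid : LBV a b γ id := by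
    unfold LBV
    refine lt_of_le_of_lt (variation_le (A := g 0 * (b - a)) fun n I hI hN => ?_)
      ENNReal.ofReal_lt_top
    calc ∑ i ∈ Finset.range n, 1 / γ i * ht id (I i)
        ≤ ∑ i ∈ Finset.range n, g 0 * ((I i).2 - (I i).1) := by
          refine Finset.sum_le_sum fun i hi => ?_
          have h1 := (hI i (Finset.mem_range.1 hi)).2.1
          have h2 : ht id (I i) = (I i).2 - (I i).1 := by
            unfold ht; simp only [id]; rw [abs_of_pos (by linarith)]
          rw [h2]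
          exact mul_le_mul_of_nonneg_right (hga (Nat.zero_le i)) (by linarith)
      _ = g 0 * ∑ i ∈ Finset.range n, ((I i).2 - (I i).1) := by rw [Finset.mul_sum]
      _ ≤ g 0 * (b - a) := mul_le_mul_of_nonneg_left (total_length hab n I hI hN) (hg0 0)
  have h1 := (hall id hid).2
  have hlz : Tendsto l atTop (𝓝 0) := by
    rw [ENNReal.tendsto_atTop_zero] at h1
    rw [Metric.tendsto_atTop]
    intro ε hε
    obtain ⟨M, hM⟩ := h1 (ENNReal.ofReal (ε / 2 * (b - a))) (by simp; positivity)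
    refine ⟨M, fun m hm => ?_⟩
    have h2 := le_variation (a := a) (b := b) (lam := fun i => lam (i + m)) (f := id) 1
      (fun _ => (a, b)) (fun _ _ => ⟨le_rfl, hab, le_rfl⟩) (by intro i hi j hj hij; omega)
    have h3 := h2.trans (hM m hm)
    rw [ENNReal.ofReal_le_ofReal_iff (by positivity)] at h3
    simp only [Finset.range_one, Finset.sum_singleton, zero_add, ht, id] at h3
    rw [abs_of_pos hba] at h3
    have h4 : l m ≤ ε / 2 := le_of_mul_le_mul_right h3 hba
    rw [Real.dist_eq, sub_zero, abs_of_nonneg (hl0 m)]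
    linarith
  refine ⟨⟨l 0 / ρ, fun n => ?_⟩, ?_⟩
  · have h2 : ps l n ≤ l 0 * n := by
      have : ps l n ≤ ∑ _i ∈ Finset.range n, l 0 := Finset.sum_le_sum fun i _ => hla (Nat.zero_le _)
      simpa [mul_comm] using this
    have h3 := mul_le_mul_of_nonneg_left (hG n) (hl0 0)
    rw [div_mul_eq_mul_div, le_div_iff₀ hρ]
    nlinarith
  · intro ε hε
    have h2 := hlz.cesaro
    have h3 := (h2.eventually_lt_const (show (0 : ℝ) < ε * ρ by positivity)).and
      (eventually_ge_atTop 1)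
    obtain ⟨N, hN⟩ := h3.exists_forall_of_atTop
    refine ⟨1, one_pos, N, fun n hn hS => ?_⟩
    exfalso
    obtain ⟨h4, h5⟩ := hN n hn
    have h6 : (0 : ℝ) < n := by exact_mod_cast h5
    have h7 : ps l n < ε * ρ * n := by
      have h8 : (n : ℝ)⁻¹ * ps l n < ε * ρ := h4
      rw [inv_mul_lt_iff₀ h6] at h8
      linarith
    have h8 := mul_le_mul_of_nonneg_left (hG n) hε.le
    nlinarith

theorem criterion (a b : ℝ) (hab : a < b) (γ lam : ℕ → ℝ) (hγ : IsLambdaSeq γ)
    (hlam : IsLambdaSeq lam) :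
    (∀ f : ℝ → ℝ, LBV a b γ f → LBVc a b lam f) ↔
      (∃ C : ℝ, ∀ n, recSum lam n ≤ C * recSum γ n) ∧
      ∀ ε > 0, ∃ δ > 0, ∃ N, ∀ n ≥ N, ε * recSum γ n ≤ recSum lam n →
        recSum γ (2 * n) ≤ (2 - δ) * recSum γ n := by
  constructor
  · intro hall
    rw [recSum_eq, recSum_eq]
    by_cases hbd : ∃ ρ > 0, ∀ i, ρ ≤ 1 / γ i
    · obtain ⟨ρ, hρ, hρg⟩ := hbd
      exact necessary_bdd hab hγ hlam hρ hρg hall
    · push Not at hbd
      refine necessary_aux hab hγ hlam ?_ hall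
      rw [Metric.tendsto_atTop]
      intro ε hε
      obtain ⟨i, hi⟩ := hbd ε hε
      refine ⟨i, fun n hn => ?_⟩
      rw [Real.dist_eq, sub_zero, abs_of_pos (hγ.ipos n)]
      exact (hγ.anti hn).trans_lt hi
  · rintro ⟨h1, h2⟩ f hf
    exact sufficient hγ hlam h1 h2 f hf

end Q170.GB
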