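import Pool.Agent.Q170.GB.Suff2

namespace Q170.GB

open Filter Topology

/-- a smooth zigzag -/
noncomputable def zz (u : ℝ) : ℝ := (1 - Real.cos (Real.pi * u)) / 2

lemma zz_nonneg (u : ℝ) : 0 ≤ zz u := by
  unfold zz; linarith [Real.cos_le_one (Real.pi * u)]

lemma zz_le_one (u : ℝ) : zz u ≤ 1 := by
  unfold zz; linarith [Real.neg_one_le_cos (Real.pi * u)]

lemma zz_sub_le_one (u v : ℝ) : |zz u - zz v| ≤ 1 := by
  rw [abs_le]
  constructor <;> linarith [zz_nonneg u, zz_nonneg v, zz_le_one u, zz_le_one v]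

lemma zz_lip (u v : ℝ) : |zz u - zz v| ≤ 2 * |u - v| := by
  have h1 : zz u - zz v = Real.sin (Real.pi * (u + v) / 2) * Real.sin (Real.pi * (u - v) / 2) := by
    unfold zz
    have := Real.cos_sub_cos (Real.pi * v) (Real.pi * u)
    have e1 : (Real.pi * v + Real.pi * u) / 2 = Real.pi * (u + v) / 2 := by ring
    have e2 : (Real.pi * v - Real.pi * u) / 2 = - (Real.pi * (u - v) / 2) := by ring
    rw [e1, e2, Real.sin_neg] at this
    linarith
  rw [h1, abs_mul]
  have h2 := Real.abs_sin_le_one (Real.pi * (u + v) / 2)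
  have h3 : |Real.sin (Real.pi * (u - v) / 2)| ≤ |Real.pi * (u - v) / 2| := Real.abs_sin_le_abs
  have h4 : |Real.pi * (u - v) / 2| = Real.pi / 2 * |u - v| := by
    rw [show Real.pi * (u - v) / 2 = Real.pi / 2 * (u - v) by ring, abs_mul,
      abs_of_pos (by positivity)]
  have h5 : Real.pi / 2 * |u - v| ≤ 2 * |u - v| := by
    apply mul_le_mul_of_nonneg_right _ (abs_nonneg _)
    linarith [Real.pi_le_four]
  calc |Real.sin (Real.pi * (u + v) / 2)| * |Real.sin (Real.pi * (u - v) / 2)|
      ≤ 1 * |Real.sin (Real.pi * (u - v) / 2)| := mul_le_mul_of_nonneg_right h2 (abs_nonneg _)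
    _ ≤ _ := by linarith

lemma zz_nat (k : ℕ) : |zz ((k : ℝ) + 1) - zz k| = 1 := by
  unfold zz
  have h1 : Real.cos (Real.pi * ((k : ℝ) + 1)) = - Real.cos (Real.pi * k) := by
    rw [mul_add, mul_one, Real.cos_add_pi]
  rw [h1]
  have h2 : Real.cos (Real.pi * k) = (-1) ^ k := by
    rw [mul_comm, Real.cos_nat_mul_pi]
  rw [h2]
  rcases neg_one_pow_eq_or ℝ k with h | h <;> rw [h] <;> norm_num

/-- The data of the construction. -/
structure Data (h : ℕ → ℝ) (n : ℕ → ℕ) : Prop where
  h0 : ∀ j, 0 < h j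
  h1 : ∀ j, h (j + 1) ≤ h j / 8
  n0 : ∀ j, 1 ≤ n j
  h2 : ∀ j, 8 * (h j * n j) ≤ h (j + 1) * n (j + 1)

namespace Data

variable {h : ℕ → ℝ} {n : ℕ → ℕ} (D : Data h n)
include D

lemma geom (k j : ℕ) : h (k + j) ≤ h k * (1 / 8) ^ j := by
  induction j with
  | zero => simp
  | succ j ih =>
    have := D.h1 (k + j)
    rw [← add_assoc, pow_succ]
    linarith

lemma summ (k : ℕ) : Summable fun j => h (k + j) :=
  Summable.of_nonneg_of_le (fun j => (D.h0 _).le) (D.geom k)
    ((summable_geometric_of_lt_one (by norm_num) (by norm_num)).mul_left _)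

lemma tail (k : ℕ) : ∑' j, h (k + j) ≤ 8 / 7 * h k := by
  have h1 : Summable fun j : ℕ => h k * (1 / 8 : ℝ) ^ j :=
    (summable_geometric_of_lt_one (by norm_num) (by norm_num)).mul_left _
  have h2 := (D.summ k).tsum_le_tsum (D.geom k) h1
  rw [tsum_mul_left, tsum_geometric_of_lt_one (by norm_num) (by norm_num)] at h2
  norm_num at h2
  linarith

lemma head (k : ℕ) : ∑ j ∈ Finset.range k, h j * n j ≤ h k * n k / 7 := by
  induction k with
  | zero =>
    have := D.h0 0
    simp only [Finset.range_zero, Finset.sum_empty]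
    positivity
  | succ k ih =>
    rw [Finset.sum_range_succ]
    have := D.h2 k
    linarith

lemma grow (j : ℕ) : n j < n (j + 1) := by
  have h1 := D.h1 j
  have h2 := D.h2 j
  have h3 := D.h0 (j + 1)
  have h4 := D.h0 j
  have h5 : (1 : ℝ) ≤ n j := by exact_mod_cast D.n0 j
  by_contra hc
  push Not at hc
  have h6 : (n (j + 1) : ℝ) ≤ n j := by exact_mod_cast hc
  have h7 : h (j + 1) * n (j + 1) ≤ h j / 8 * n j := by
    apply mul_le_mul h1 h6 (by positivity) (by positivity)
  nlinarith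

lemma le_n (j : ℕ) : j < n j := by
  induction j with
  | zero => exact D.n0 0
  | succ j ih => have := D.grow j; omega

end Data

/-- The function of the construction. -/
noncomputable def fn (a b : ℝ) (h : ℕ → ℝ) (n : ℕ → ℕ) (x : ℝ) : ℝ :=
  ∑' j, h j * zz (n j * ((x - a) / (b - a)))

section
variable {h : ℕ → ℝ} {n : ℕ → ℕ} (D : Data h n) (a b : ℝ)
include D

lemma fn_summ (x : ℝ) : Summable fun j => h j * zz (n j * ((x - a) / (b - a))) := by
  have := D.summ 0
  simp only [zero_add] at this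
  refine Summable.of_nonneg_of_le (fun j => mul_nonneg (D.h0 _).le (zz_nonneg _)) (fun j => ?_) this
  exact mul_le_of_le_one_right (D.h0 _).le (zz_le_one _)

/-- decomposition of a difference -/
lemma fn_diff (s t : ℝ) (k : ℕ) :
    ∃ r : ℝ, |r| ≤ ∑' j, h (k + j) ∧
    fn a b h n t - fn a b h n s =
      (∑ j ∈ Finset.range k, h j * (zz (n j * ((t - a) / (b - a))) - zz (n j * ((s - a) / (b - a)))))
        + r := by
  have hs := fn_summ D a b s
  have ht := fn_summ D a b t
  have hd : Summable fun j => h j * (zz (n j * ((t - a) / (b - a))) - zz (n j * ((s - a) / (b - a)))) := by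
    refine (ht.sub hs).congr fun j => by ring
  refine ⟨∑' j, h (k + j) * (zz (n (k + j) * ((t - a) / (b - a))) -
    zz (n (k + j) * ((s - a) / (b - a)))), ?_, ?_⟩
  · have h1 : ∀ j, ‖h (k + j) * (zz (n (k + j) * ((t - a) / (b - a))) -
        zz (n (k + j) * ((s - a) / (b - a))))‖ ≤ h (k + j) := by
      intro j
      rw [norm_mul, Real.norm_eq_abs, Real.norm_eq_abs, abs_of_pos (D.h0 _)]
      exact mul_le_of_le_one_right (D.h0 _).le (zz_sub_le_one _ _)
    rw [← Real.norm_eq_abs]
    exact tsum_of_norm_bounded (D.summ k).hasSum h1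
  · unfold fn
    rw [← ht.tsum_sub hs]
    have h2 : ∑' j, (h j * zz (n j * ((t - a) / (b - a))) - h j * zz (n j * ((s - a) / (b - a)))) =
        ∑' j, h j * (zz (n j * ((t - a) / (b - a))) - zz (n j * ((s - a) / (b - a)))) :=
      tsum_congr fun j => by ring
    rw [h2, ← hd.sum_add_tsum_nat_add k]
    congr 1
    exact tsum_congr fun j => by rw [add_comm]

lemma head_diff (s t : ℝ) (k : ℕ) :
    |∑ j ∈ Finset.range k, h j * (zz (n j * ((t - a) / (b - a))) - zz (n j * ((s - a) / (b - a))))| ≤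
      2 * |(t - s) / (b - a)| * ∑ j ∈ Finset.range k, h j * n j := by
  rw [Finset.mul_sum]
  refine (Finset.abs_sum_le_sum_abs _ _).trans (Finset.sum_le_sum fun j _ => ?_)
  rw [abs_mul, abs_of_pos (D.h0 _)]
  have h1 := zz_lip (n j * ((t - a) / (b - a))) (n j * ((s - a) / (b - a)))
  have h2 : (n j : ℝ) * ((t - a) / (b - a)) - n j * ((s - a) / (b - a)) =
      n j * ((t - s) / (b - a)) := by ring
  rw [h2, abs_mul, Nat.abs_cast] at h1
  calc h j * |zz (n j * ((t - a) / (b - a))) - zz (n j * ((s - a) / (b - a)))|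
      ≤ h j * (2 * (n j * |(t - s) / (b - a)|)) := mul_le_mul_of_nonneg_left h1 (D.h0 _).le
    _ = _ := by ring

/-- upper bound for the height -/
lemma fn_upper (s t : ℝ) (k : ℕ) :
    |fn a b h n t - fn a b h n s| ≤
      2 * |(t - s) / (b - a)| * (∑ j ∈ Finset.range k, h j * n j) + 8 / 7 * h k := by
  obtain ⟨r, hr, he⟩ := fn_diff D a b s t k
  rw [he]
  refine (abs_add_le _ _).trans (add_le_add (head_diff D a b s t k) (hr.trans (D.tail k)))

/-- lower bound for the height on the intervals of the `k`-th scale -/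
lemma fn_lower (hab : a < b) (k i : ℕ) :
    h k / 2 ≤ |fn a b h n (a + (b - a) * ((i + 1 : ℕ) / n k)) - fn a b h n (a + (b - a) * (i / n k))| := by
  set t := a + (b - a) * ((i + 1 : ℕ) / n k : ℝ) with ht
  set s := a + (b - a) * ((i : ℝ) / n k) with hs
  have hba : 0 < b - a := by linarith
  have hn : (0 : ℝ) < n k := by exact_mod_cast (D.n0 k)
  obtain ⟨r, hr, he⟩ := fn_diff D a b s t (k + 1)
  rw [Finset.sum_range_succ] at he
  have e1 : (n k : ℝ) * ((t - a) / (b - a)) = i + 1 := by
    rw [ht]; push_cast; field_simp; ring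
  have e2 : (n k : ℝ) * ((s - a) / (b - a)) = i := by
    rw [hs]; field_simp; ring
  rw [e1, e2] at he
  have e3 : |(t - s) / (b - a)| = 1 / n k := by
    have : (t - s) / (b - a) = 1 / n k := by
      rw [ht, hs]; push_cast; field_simp; ring
    rw [this, abs_of_pos (by positivity)]
  have h1 := head_diff D a b s t k
  rw [e3] at h1
  have h2 : 2 * (1 / (n k : ℝ)) * ∑ j ∈ Finset.range k, h j * n j ≤ 2 / 7 * h k := by
    have := D.head k
    rw [mul_one_div, div_mul_eq_mul_div, div_le_iff₀ hn]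
    linarith
  have h3 : |r| ≤ h k / 7 := by
    have h4 := D.tail (k + 1)
    have h5 := D.h1 k
    linarith
  have h4 : |h k * (zz ((i : ℝ) + 1) - zz i)| = h k := by
    rw [abs_mul, zz_nat, abs_of_pos (D.h0 k), mul_one]
  set S := ∑ j ∈ Finset.range k, h j * (zz (n j * ((t - a) / (b - a))) -
    zz (n j * ((s - a) / (b - a)))) with hS
  have h5 : h k * (zz ((i : ℝ) + 1) - zz i) = (fn a b h n t - fn a b h n s) - S - r := by
    rw [he]; ring
  have h6 : |h k * (zz ((i : ℝ) + 1) - zz i)| ≤ |fn a b h n t - fn a b h n s| + |S| + |r| := by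
    rw [h5]
    refine (abs_sub _ _).trans ?_
    have := abs_sub (fn a b h n t - fn a b h n s) S
    linarith
  rw [h4] at h6
  linarith [D.h0 k]

end

end Q170.GB
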