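import Pool.Agent.Q170.GB.Nec

namespace Q170.GB

open Filter Topology

/-- total length of non-overlapping intervals -/
lemma total_length {a b : ℝ} (hab : a < b) (n : ℕ) (I : ℕ → ℝ × ℝ) (hI : ∀ i < n, In a b (I i))
    (hN : ∀ i < n, ∀ j < n, i ≠ j → NO (I i) (I j)) :
    ∑ i ∈ Finset.range n, ((I i).2 - (I i).1) ≤ b - a := by
  have h1 : MeasureTheory.volume (⋃ i ∈ Finset.range n, Set.Ioo (I i).1 (I i).2) =
      ∑ i ∈ Finset.range n, MeasureTheory.volume (Set.Ioo (I i).1 (I i).2) := by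
    refine MeasureTheory.measure_biUnion_finset ?_ (fun _ _ => measurableSet_Ioo)
    intro i hi j hj hij
    have hi' : i < n := by simpa using hi
    have hj' : j < n := by simpa using hj
    exact (no_iff (hI i hi').2.1 (hI j hj').2.1).1 (hN i hi' j hj' hij)
  have h2 : MeasureTheory.volume (⋃ i ∈ Finset.range n, Set.Ioo (I i).1 (I i).2) ≤
      MeasureTheory.volume (Set.Icc a b) := by
    refine MeasureTheory.measure_mono (Set.iUnion₂_subset fun i hi => ?_)
    have hi' : i < n := by simpa using hi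
    have := hI i hi'
    intro x hx
    exact ⟨this.1.trans hx.1.le, hx.2.le.trans this.2.2⟩
  rw [h1, Real.volume_Icc] at h2
  simp only [Real.volume_Ioo] at h2
  rw [← ENNReal.ofReal_sum_of_nonneg (fun i hi => by
    have := (hI i (by simpa using hi)).2.1
    linarith)] at h2
  exact (ENNReal.ofReal_le_ofReal_iff (by linarith)).1 h2

/-- the positive parts -/
lemma pos_part_sum {g : ℕ → ℝ} (hg : Antitone g) (q N : ℕ) :
    ∑ i ∈ Finset.range N, max (g i - g q) 0 ≤ ps g q - q * g q := by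
  have h1 : ps g q - q * g q = ∑ i ∈ Finset.range q, (g i - g q) := by
    unfold ps
    rw [Finset.sum_sub_distrib]
    simp
  rw [h1]
  calc ∑ i ∈ Finset.range N, max (g i - g q) 0
      ≤ ∑ i ∈ Finset.range N, (if i < q then (g i - g q) else 0) := by
        refine Finset.sum_le_sum fun i _ => ?_
        split_ifs with h
        · exact max_le le_rfl (sub_nonneg.2 (hg h.le))
        · exact max_le (sub_nonpos.2 (hg (not_lt.1 h))) le_rfl
    _ = ∑ i ∈ (Finset.range N).filter (fun i => i < q), (g i - g q) := by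
        rw [Finset.sum_filter]
    _ ≤ ∑ i ∈ Finset.range q, (g i - g q) := by
        refine Finset.sum_le_sum_of_subset_of_nonneg ?_ ?_
        · intro i hi
          have := (Finset.mem_filter.1 hi).2
          simpa using this
        · intro i hi _
          exact sub_nonneg.2 (hg (Finset.mem_range.1 hi).le)

/-- The pointwise estimate of `g_i |f(I)|`. -/
lemma pointwise {a b : ℝ} (hab : a < b) {h : ℕ → ℝ} {n : ℕ → ℕ} (D : Data h n)
    {g : ℕ → ℝ} (hg : Antitone g) (hg0 : ∀ i, 0 ≤ g i) (hq : ∀ k, h k * ps g (n k) ≤ 1)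
    (s t : ℝ) (hst : s < t) :
    ∃ K : ℕ, ∀ K' ≥ K, ∀ i, g i * |fn a b h n t - fn a b h n s| ≤
      4 * ((t - s) / (b - a) + ∑ k ∈ Finset.range K', h k * max (g i - g (n k)) 0) := by
  classical
  set ℓ := (t - s) / (b - a) with hℓ
  have hℓ0 : 0 < ℓ := div_pos (by linarith) (by linarith)
  have habs : |ℓ| = ℓ := abs_of_pos hℓ0
  have hex : ∃ k, 1 ≤ n k * ℓ := by
    obtain ⟨k, hk⟩ := exists_nat_gt (1 / ℓ)
    refine ⟨k, ?_⟩
    have h1 : (k : ℝ) ≤ n k := by exact_mod_cast (D.le_n k).le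
    rw [div_lt_iff₀ hℓ0] at hk
    nlinarith
  set k := Nat.find hex with hk
  have hk1 : 1 ≤ n k * ℓ := Nat.find_spec hex
  have hng : ∀ q : ℕ, q * g q ≤ ps g q := by
    intro q
    have : ∑ _i ∈ Finset.range q, g q ≤ ps g q :=
      Finset.sum_le_sum fun i hi => hg (Finset.mem_range.1 hi).le
    simpa using this
  refine ⟨k + 1, fun K' hK' i => ?_⟩
  have hS0 : ∀ j, 0 ≤ h j * max (g i - g (n j)) 0 := fun j =>
    mul_nonneg (D.h0 j).le (le_max_right _ _)
  have hS : ∀ j < K', h j * max (g i - g (n j)) 0 ≤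
      ∑ k ∈ Finset.range K', h k * max (g i - g (n k)) 0 := fun j hj =>
    Finset.single_le_sum (f := fun k => h k * max (g i - g (n k)) 0) (fun j _ => hS0 j)
      (Finset.mem_range.2 hj)
  set S := ∑ k ∈ Finset.range K', h k * max (g i - g (n k)) 0 with hSdef
  have hup := fn_upper D a b s t k
  rw [← hℓ, habs] at hup
  have hgi := hg0 i
  have h1 : g i * (8 / 7 * h k) ≤ 8 / 7 * (ℓ + S) := by
    have h2 : g i ≤ g (n k) + max (g i - g (n k)) 0 := by linarith [le_max_left (g i - g (n k)) 0]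
    have h3 : h k * g (n k) ≤ ℓ := by
      have h4 : h k * g (n k) * 1 ≤ h k * g (n k) * (n k * ℓ) :=
        mul_le_mul_of_nonneg_left hk1 (mul_nonneg (D.h0 k).le (hg0 _))
      have h5 : h k * (n k * g (n k)) ≤ 1 :=
        (mul_le_mul_of_nonneg_left (hng (n k)) (D.h0 k).le).trans (hq k)
      have h6 : h k * (n k * g (n k)) * ℓ ≤ 1 * ℓ := mul_le_mul_of_nonneg_right h5 hℓ0.le
      nlinarith
    have h7 := hS k (by omega)
    have h8 : h k * g i ≤ h k * (g (n k) + max (g i - g (n k)) 0) :=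
      mul_le_mul_of_nonneg_left h2 (D.h0 k).le
    nlinarith
  have h2 : g i * (2 * ℓ * ∑ j ∈ Finset.range k, h j * n j) ≤ 16 / 7 * (ℓ + S) := by
    rcases Nat.eq_zero_or_pos k with hk0 | hkpos
    · rw [hk0]
      have : 0 ≤ S := Finset.sum_nonneg fun j _ => hS0 j
      simp only [Finset.range_zero, Finset.sum_empty, mul_zero]
      positivity
    · obtain ⟨m, hm⟩ : ∃ m, k = m + 1 := ⟨k - 1, by omega⟩
      have hmk : ¬ 1 ≤ n m * ℓ := Nat.find_min hex (by omega)
      push Not at hmk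
      have h3 : ∑ j ∈ Finset.range k, h j * n j ≤ 8 / 7 * (h m * n m) := by
        rw [hm, Finset.sum_range_succ]
        linarith [D.head m]
      have h4 : g i ≤ g (n m) + max (g i - g (n m)) 0 := by linarith [le_max_left (g i - g (n m)) 0]
      have h5 : h m * (n m * g (n m)) ≤ 1 :=
        (mul_le_mul_of_nonneg_left (hng (n m)) (D.h0 m).le).trans (hq m)
      have h6 : h m * (n m * g (n m)) * ℓ ≤ 1 * ℓ := mul_le_mul_of_nonneg_right h5 hℓ0.le
      have h7 := hS m (by omega)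
      have h8 : h m * max (g i - g (n m)) 0 * (n m * ℓ) ≤ S := by
        have : h m * max (g i - g (n m)) 0 * (n m * ℓ) ≤ h m * max (g i - g (n m)) 0 * 1 :=
          mul_le_mul_of_nonneg_left hmk.le (hS0 m)
        linarith
      have hmn : 0 ≤ h m * n m * ℓ := by
        have := D.h0 m
        positivity
      calc g i * (2 * ℓ * ∑ j ∈ Finset.range k, h j * n j)
          ≤ g i * (2 * ℓ * (8 / 7 * (h m * n m))) := by
            apply mul_le_mul_of_nonneg_left _ hgi
            apply mul_le_mul_of_nonneg_left h3 (by positivity)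
        _ = 16 / 7 * (g i * (h m * n m * ℓ)) := by ring
        _ ≤ 16 / 7 * ((g (n m) + max (g i - g (n m)) 0) * (h m * n m * ℓ)) := by
            apply mul_le_mul_of_nonneg_left _ (by norm_num)
            exact mul_le_mul_of_nonneg_right h4 hmn
        _ ≤ 16 / 7 * (ℓ + S) := by nlinarith
  have hS00 : 0 ≤ S := Finset.sum_nonneg fun j _ => hS0 j
  calc g i * |fn a b h n t - fn a b h n s|
      ≤ g i * (2 * ℓ * (∑ j ∈ Finset.range k, h j * n j) + 8 / 7 * h k) :=
        mul_le_mul_of_nonneg_left hup hgi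
    _ = g i * (2 * ℓ * (∑ j ∈ Finset.range k, h j * n j)) + g i * (8 / 7 * h k) := by ring
    _ ≤ 16 / 7 * (ℓ + S) + 8 / 7 * (ℓ + S) := add_le_add h2 h1
    _ ≤ 4 * (ℓ + S) := by linarith

/-- The constructed function has bounded `Γ`-variation. -/
lemma fn_bound {a b : ℝ} (hab : a < b) {h : ℕ → ℝ} {n : ℕ → ℕ} (D : Data h n)
    {g : ℕ → ℝ} (hg : Antitone g) (hg0 : ∀ i, 0 ≤ g i) (hq : ∀ k, h k * ps g (n k) ≤ 1)
    (he : ∀ k, h k * (ps g (n k) - n k * g (n k)) ≤ (1 / 2) ^ k)
    (N : ℕ) (I : ℕ → ℝ × ℝ) (hI : ∀ i < N, In a b (I i))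
    (hN : ∀ i < N, ∀ j < N, i ≠ j → NO (I i) (I j)) :
    ∑ i ∈ Finset.range N, g i * ht (fn a b h n) (I i) ≤ 12 := by
  classical
  have hK : ∀ i, ∃ K : ℕ, i < N → ∀ K' ≥ K, g i * ht (fn a b h n) (I i) ≤
      4 * (((I i).2 - (I i).1) / (b - a) + ∑ k ∈ Finset.range K', h k * max (g i - g (n k)) 0) := by
    intro i
    by_cases hi : i < N
    · obtain ⟨K, hK⟩ := pointwise hab D hg hg0 hq (I i).1 (I i).2 (hI i hi).2.1
      exact ⟨K, fun _ K' hK' => hK K' hK' i⟩
    · exact ⟨0, fun h => absurd h hi⟩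
  choose K hK using hK
  set M := (Finset.range N).sup K with hM
  have h1 : ∑ i ∈ Finset.range N, g i * ht (fn a b h n) (I i) ≤
      ∑ i ∈ Finset.range N, 4 * (((I i).2 - (I i).1) / (b - a) +
        ∑ k ∈ Finset.range M, h k * max (g i - g (n k)) 0) :=
    Finset.sum_le_sum fun i hi => hK i (Finset.mem_range.1 hi) M (Finset.le_sup hi)
  refine h1.trans ?_
  rw [← Finset.mul_sum, Finset.sum_add_distrib, ← Finset.sum_div]
  have h2 : (∑ i ∈ Finset.range N, ((I i).2 - (I i).1)) / (b - a) ≤ 1 := by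
    rw [div_le_one (by linarith)]
    exact total_length hab N I hI hN
  have h3 : ∑ i ∈ Finset.range N, ∑ k ∈ Finset.range M, h k * max (g i - g (n k)) 0 ≤ 2 := by
    rw [Finset.sum_comm]
    calc ∑ k ∈ Finset.range M, ∑ i ∈ Finset.range N, h k * max (g i - g (n k)) 0
        ≤ ∑ k ∈ Finset.range M, (1 / 2 : ℝ) ^ k := by
          refine Finset.sum_le_sum fun k _ => ?_
          rw [← Finset.mul_sum]
          exact (mul_le_mul_of_nonneg_left (pos_part_sum hg (n k) N) (D.h0 k).le).trans (he k)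
      _ ≤ 2 := by
          have h4 : Summable fun k : ℕ => (1 / 2 : ℝ) ^ k :=
            summable_geometric_of_lt_one (by norm_num) (by norm_num)
          have h5 := h4.sum_le_tsum (Finset.range M) (fun _ _ => by positivity)
          rw [tsum_geometric_two] at h5
          exact h5
  linarith

/-- The family of the `k`-th scale. -/
lemma fn_family {a b : ℝ} (hab : a < b) {h : ℕ → ℝ} {n : ℕ → ℕ} (D : Data h n)
    {l : ℕ → ℝ} (hl0 : ∀ i, 0 ≤ l i) (k m : ℕ) :
    ∃ I : ℕ → ℝ × ℝ, (∀ i < n k, In a b (I i)) ∧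
      (∀ i < n k, ∀ j < n k, i ≠ j → NO (I i) (I j)) ∧
      h k / 2 * (ps l (n k) - ps l m) ≤
        ∑ i ∈ Finset.range (n k), l (i + m) * ht (fn a b h n) (I i) := by
  have hba : 0 < b - a := by linarith
  have hn : (0 : ℝ) < n k := by exact_mod_cast (D.n0 k)
  refine ⟨fun i => (a + (b - a) * (i / n k), a + (b - a) * ((i + 1 : ℕ) / n k)), ?_, ?_, ?_⟩
  · intro i hi
    refine ⟨?_, ?_, ?_⟩
    · simp only
      have : 0 ≤ (b - a) * ((i : ℝ) / n k) := by positivity
      linarith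
    · simp only
      have : (i : ℝ) / n k < ((i + 1 : ℕ) : ℝ) / n k := by
        apply div_lt_div_of_pos_right _ hn
        push_cast; linarith
      have := mul_lt_mul_of_pos_left this hba
      linarith
    · simp only
      have h1 : ((i + 1 : ℕ) : ℝ) / n k ≤ 1 := by
        rw [div_le_one hn]; exact_mod_cast hi
      have := mul_le_mul_of_nonneg_left h1 hba.le
      linarith
  · intro i _ j _ hij
    unfold NO
    simp only
    rcases lt_or_gt_of_ne hij with hlt | hlt
    · left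
      have h1 : ((i + 1 : ℕ) : ℝ) / n k ≤ (j : ℝ) / n k := by
        apply div_le_div_of_nonneg_right _ hn.le
        exact_mod_cast hlt
      have := mul_le_mul_of_nonneg_left h1 hba.le
      linarith
    · right
      have h1 : ((j + 1 : ℕ) : ℝ) / n k ≤ (i : ℝ) / n k := by
        apply div_le_div_of_nonneg_right _ hn.le
        exact_mod_cast hlt
      have := mul_le_mul_of_nonneg_left h1 hba.le
      linarith
  · have h1 : ps l (n k) - ps l m ≤ ∑ i ∈ Finset.range (n k), l (i + m) := by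
      have h2 := Finset.sum_range_add l m (n k)
      have h3 : ps l (n k) ≤ ps l (m + n k) := ps_mono hl0 (by omega)
      unfold ps at h3 ⊢
      have h4 : ∑ i ∈ Finset.range (n k), l (i + m) = ∑ i ∈ Finset.range (n k), l (m + i) :=
        Finset.sum_congr rfl fun i _ => by rw [add_comm]
      rw [h4]
      linarith
    calc h k / 2 * (ps l (n k) - ps l m) ≤ h k / 2 * ∑ i ∈ Finset.range (n k), l (i + m) :=
          mul_le_mul_of_nonneg_left h1 (by linarith [D.h0 k])
      _ = ∑ i ∈ Finset.range (n k), l (i + m) * (h k / 2) := by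
          rw [Finset.mul_sum]
          exact Finset.sum_congr rfl fun i _ => by ring
      _ ≤ _ := by
          refine Finset.sum_le_sum fun i _ => mul_le_mul_of_nonneg_left ?_ (hl0 _)
          exact fn_lower D a b hab k i

/-- Existence of the sequence of scales. -/
lemma exists_scales {G : ℕ → ℝ} (hG : Tendsto G atTop atTop)
    (hG2 : Tendsto (fun n : ℕ => (n : ℝ) / G n) atTop atTop) (P : ℕ → ℕ → Prop)
    (hP : ∀ k N, ∃ n ≥ N, P k n) :
    ∃ n : ℕ → ℕ, (∀ k, 1 ≤ n k ∧ 0 < G (n k) ∧ P k (n k)) ∧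
      ∀ k, 8 * G (n k) ≤ G (n (k + 1)) ∧ 16 * ((n k : ℝ) / G (n k)) ≤ (n (k + 1) : ℝ) / G (n (k + 1)) := by
  have hex : ∀ k m : ℕ, ∃ n, 1 ≤ n ∧ 0 < G n ∧ P k n ∧ 8 * G m ≤ G n ∧
      16 * ((m : ℝ) / G m) ≤ (n : ℝ) / G n := by
    intro k m
    obtain ⟨N1, h1⟩ := (hG.eventually_ge_atTop (8 * G m)).exists_forall_of_atTop
    obtain ⟨N2, h2⟩ := (hG2.eventually_ge_atTop (16 * ((m : ℝ) / G m))).exists_forall_of_atTop
    obtain ⟨N3, h3⟩ := (hG.eventually_gt_atTop 0).exists_forall_of_atTop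
    obtain ⟨n, hn, hPn⟩ := hP k (1 + N1 + N2 + N3)
    exact ⟨n, by omega, h3 n (by omega), hPn, h1 n (by omega), h2 n (by omega)⟩
  choose F hF using hex
  refine ⟨fun k => Nat.rec (F 0 0) (fun k m => F (k + 1) m) k, ?_, ?_⟩
  · intro k
    cases k with
    | zero => exact ⟨(hF 0 0).1, (hF 0 0).2.1, (hF 0 0).2.2.1⟩
    | succ k => exact ⟨(hF (k + 1) _).1, (hF (k + 1) _).2.1, (hF (k + 1) _).2.2.1⟩
  · intro k
    exact (hF (k + 1) _).2.2.2

/-- The data from the scales. -/
lemma data_of_scales {G : ℕ → ℝ} {n : ℕ → ℕ} {q : ℕ → ℝ} (hq0 : ∀ k, 0 < q k)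
    (hq1 : ∀ k, q (k + 1) ≤ q k) (hq2 : ∀ k, q k ≤ 2 * q (k + 1))
    (h1 : ∀ k, 1 ≤ n k ∧ 0 < G (n k))
    (h2 : ∀ k, 8 * G (n k) ≤ G (n (k + 1)) ∧
      16 * ((n k : ℝ) / G (n k)) ≤ (n (k + 1) : ℝ) / G (n (k + 1))) :
    Data (fun k => q k / G (n k)) n where
  h0 k := div_pos (hq0 k) (h1 k).2
  h1 k := by
    have ha := (h1 k).2
    have hb := (h1 (k + 1)).2
    rw [div_div, div_le_div_iff₀ hb (by positivity)]
    have h3 := (h2 k).1
    have h4 := hq1 k
    have h5 := hq0 (k + 1)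
    have h6 := hq0 k
    calc q (k + 1) * (G (n k) * 8) ≤ q k * (G (n k) * 8) :=
          mul_le_mul_of_nonneg_right h4 (by positivity)
      _ ≤ q k * G (n (k + 1)) := mul_le_mul_of_nonneg_left (by linarith) h6.le
  n0 k := (h1 k).1
  h2 k := by
    have ha := (h1 k).2
    have h3 := (h2 k).2
    have h4 := hq2 k
    have h5 := hq0 (k + 1)
    have h6 : (0 : ℝ) ≤ (n k : ℝ) / G (n k) := by positivity
    calc 8 * (q k / G (n k) * n k) = 8 * q k * ((n k : ℝ) / G (n k)) := by ring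
      _ ≤ 8 * (2 * q (k + 1)) * ((n k : ℝ) / G (n k)) :=
          mul_le_mul_of_nonneg_right (by linarith) h6
      _ = q (k + 1) * (16 * ((n k : ℝ) / G (n k))) := by ring
      _ ≤ q (k + 1) * ((n (k + 1) : ℝ) / G (n (k + 1))) := mul_le_mul_of_nonneg_left h3 h5.le
      _ = q (k + 1) / G (n (k + 1)) * n (k + 1) := by ring

end Q170.GB
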