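import Pool.Agent.Q170.GB.Core

namespace Q170.GB

open Filter Topology

/-- partial sums -/
noncomputable def ps (w : ℕ → ℝ) (n : ℕ) : ℝ := ∑ i ∈ Finset.range n, w i

lemma ps_mono {w : ℕ → ℝ} (hw0 : ∀ i, 0 ≤ w i) : Monotone (ps w) := by
  intro m n h
  exact Finset.sum_le_sum_of_subset_of_nonneg (Finset.range_mono h) (fun j _ _ => hw0 j)

lemma ps_nonneg {w : ℕ → ℝ} (hw0 : ∀ i, 0 ≤ w i) (n : ℕ) : 0 ≤ ps w n :=
  Finset.sum_nonneg fun j _ => hw0 j

lemma ps_mul_le {w : ℕ → ℝ} (hw : Antitone w) (m n : ℕ) :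
    ps w (m * n) ≤ m * ps w n := by
  induction m with
  | zero => simp [ps]
  | succ m ih =>
    have h1 : ps w ((m + 1) * n) = ps w (m * n) + ∑ j ∈ Finset.range n, w (m * n + j) := by
      unfold ps
      rw [Nat.succ_mul, Finset.sum_range_add]
    have h2 : ∑ j ∈ Finset.range n, w (m * n + j) ≤ ps w n :=
      Finset.sum_le_sum fun j _ => hw (by omega)
    push_cast
    linarith

lemma ps_half (w : ℕ → ℝ) (k : ℕ) :
    ∑ i ∈ Finset.range k, w (i / 2) = ps w ((k + 1) / 2) + ps w (k / 2) := by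
  induction k with
  | zero => simp [ps]
  | succ k ih =>
    rw [Finset.sum_range_succ, ih]
    rcases Nat.even_or_odd' k with ⟨m, rfl | rfl⟩
    · have e1 : (2 * m + 1) / 2 = m := by omega
      have e2 : 2 * m / 2 = m := by omega
      have e3 : (2 * m + 1 + 1) / 2 = m + 1 := by omega
      rw [e1, e2, e3]
      unfold ps
      rw [Finset.sum_range_succ]
      ring
    · have e1 : (2 * m + 1 + 1) / 2 = m + 1 := by omega
      have e2 : (2 * m + 1) / 2 = m := by omega
      have e3 : (2 * m + 1 + 1 + 1) / 2 = m + 1 := by omega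
      rw [e1, e2, e3]
      unfold ps
      rw [Finset.sum_range_succ]
      ring

lemma gain {g l : ℕ → ℝ} (hg : Antitone g) (hg0 : ∀ i, 0 ≤ g i) (hl : Antitone l)
    (hl0 : ∀ i, 0 ≤ l i) {ε δ : ℝ} {N : ℕ} (hε : 0 < ε) (hδ : 0 < δ)
    (h2 : ∀ n ≥ N, ε / 3 * ps g n ≤ ps l n → ps g (2 * n) ≤ (2 - δ) * ps g n)
    {k : ℕ} (hk : 2 * N + 2 ≤ k) (hkS : ε * ps g k ≤ ps l k) :
    δ / 3 * ps g k ≤ ps g ((k + 1) / 2) + ps g (k / 2) - ps g k := by
  set n := k / 2 with hn
  have hk3 : k ≤ 3 * n := by omega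
  have hG : ps g k ≤ 3 * ps g n := (ps_mono hg0 hk3).trans (by exact_mod_cast ps_mul_le hg 3 n)
  have hL : ps l k ≤ 3 * ps l n := (ps_mono hl0 hk3).trans (by exact_mod_cast ps_mul_le hl 3 n)
  have hGn : ps g n ≤ ps g k := ps_mono hg0 (by omega)
  have hS : ε / 3 * ps g n ≤ ps l n := by nlinarith
  have h3 := h2 n (by omega) hS
  have hgn := ps_nonneg hg0 n
  have key : δ * ps g n ≤ ps g ((k + 1) / 2) + ps g n - ps g k := by
    rcases Nat.even_or_odd' k with ⟨m, hm | hm⟩
    · have e1 : (k + 1) / 2 = n := by omega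
      have e2 : k = 2 * n := by omega
      rw [e1, e2]
      linarith
    · have e1 : (k + 1) / 2 = n + 1 := by omega
      have e2 : k = 2 * n + 1 := by omega
      rw [e1, e2]
      have e3 : ps g (n + 1) = ps g n + g n := by unfold ps; rw [Finset.sum_range_succ]
      have e4 : ps g (2 * n + 1) = ps g (2 * n) + g (2 * n) := by
        unfold ps; rw [Finset.sum_range_succ]
      have e5 : g (2 * n) ≤ g n := hg (by omega)
      rw [e3, e4]
      linarith
  nlinarith

lemma Bd.mono {a b : ℝ} {w : ℕ → ℝ} {f : ℝ → ℝ} {h h' A : ℝ} (hB : Bd a b w f h A) (hh : h' ≤ h) :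
    Bd a b w f h' A := fun n I hI hN hx => hB n I hI hN (fun i hi => (hx i hi).trans hh)

lemma Bd.nonneg {a b : ℝ} {w : ℕ → ℝ} {f : ℝ → ℝ} {h A : ℝ} (hB : Bd a b w f h A) : 0 ≤ A := by
  simpa using hB 0 (fun _ => (0, 0)) (by simp) (by simp) (by simp)

/-- Sums for dominated weights. -/
lemma Bd.dominated {a b : ℝ} {g l : ℕ → ℝ} {f : ℝ → ℝ} {h V C : ℝ} (hB : Bd a b g f h V)
    (hl : Antitone l) (hC : 0 ≤ C) (hLG : ∀ n, ps l n ≤ C * ps g n) :
    Bd a b l f h (C * V) := by
  intro n I hI hN hx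
  obtain ⟨J, hJ1, hJ2, hJ3, hJ4, hJ5⟩ := sorted (a := a) (b := b) f n I hI hN
  refine (hJ5 l hl).trans ?_
  set x : ℕ → ℝ := fun i => if i < n then ht f (J i) else 0 with hxdef
  have hx1 : ∀ w : ℕ → ℝ, ∑ i ∈ Finset.range n, w i * ht f (J i) =
      ∑ i ∈ Finset.range n, w i * x i := fun w =>
    Finset.sum_congr rfl fun i hi => by simp [hxdef, Finset.mem_range.1 hi]
  have hx2 : Antitone x := by
    intro i j hij
    simp only [hxdef]
    split_ifs with h1 h2
    · exact hJ4 i h2 j h1 hij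
    · omega
    · exact ht_nonneg _ _
    · exact le_rfl
  have h1 := compare l (fun i => C * g i) x 0 n hx2 (by simp [hxdef]) (by
    intro k _ _
    rw [zero_add, ← Finset.mul_sum]
    exact hLG k)
  have h2 := hB n J hJ1 hJ2 (fun i hi => by
    obtain ⟨j, hj, hji⟩ := hJ3 i hi
    rw [hji]; exact hx j hj)
  rw [hx1 g] at h2
  rw [hx1 l]
  have h3 : ∑ i ∈ Finset.range n, C * g i * x i = C * ∑ i ∈ Finset.range n, g i * x i := by
    rw [Finset.mul_sum]
    exact Finset.sum_congr rfl fun i _ => by ring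
  rw [h3] at h1
  have h4 : C * ∑ i ∈ Finset.range n, g i * x i ≤ C * V := mul_le_mul_of_nonneg_left h2 hC
  linarith

/-- Main step: the fine-scale `Λ`-variation tends to zero. -/
theorem fine {a b : ℝ} {g l : ℕ → ℝ} {f : ℝ → ℝ} {V C : ℝ}
    (hg : Antitone g) (hg0 : ∀ i, 0 < g i) (hl : Antitone l) (hl0 : ∀ i, 0 < l i)
    (hB : ∀ h, Bd a b g f h V) (hC : 0 < C) (hLG : ∀ n, ps l n ≤ C * ps g n)
    (hii : ∀ ε > 0, ∃ δ > 0, ∃ N, ∀ n ≥ N, ε * ps g n ≤ ps l n → ps g (2 * n) ≤ (2 - δ) * ps g n)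
    {η : ℝ} (hη : 0 < η) : ∃ h > 0, Bd a b l f h η := by
  by_contra hcon
  push Not at hcon
  have hg0' : ∀ i, 0 ≤ g i := fun i => (hg0 i).le
  have hl0' : ∀ i, 0 ≤ l i := fun i => (hl0 i).le
  have hV : 0 ≤ V := (hB 1).nonneg
  set c : ℝ := (V + 2) / η with hc
  have hcpos : 0 < c := by positivity
  have hcη : c * η = V + 2 := by rw [hc]; field_simp
  set θ : ℕ → ℝ := fun i => g i + c * l i with hθ
  have hθa : Antitone θ := fun i j hij =>
    add_le_add (hg hij) (mul_le_mul_of_nonneg_left (hl hij) hcpos.le)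
  have hθ0 : ∀ i, 0 ≤ θ i := fun i => add_nonneg (hg0' i) (mul_nonneg hcpos.le (hl0' i))
  have hθB : ∀ h, Bd a b θ f h (V + c * (C * V)) := by
    intro h n I hI hN hx
    have h1 := hB h n I hI hN hx
    have h2 := (hB h).dominated hl hC.le hLG n I hI hN hx
    have h3 : ∑ i ∈ Finset.range n, θ i * ht f (I i) =
        ∑ i ∈ Finset.range n, g i * ht f (I i) + c * ∑ i ∈ Finset.range n, l i * ht f (I i) := by
      rw [Finset.mul_sum, ← Finset.sum_add_distrib]
      exact Finset.sum_congr rfl fun i _ => by simp only [hθ]; ring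
    rw [h3]
    exact add_le_add h1 (mul_le_mul_of_nonneg_left h2 hcpos.le)
  set S : Set ℝ := {A | ∃ h > 0, Bd a b θ f h A} with hS
  have hSne : S.Nonempty := ⟨_, 1, one_pos, hθB 1⟩
  have hSlow : ∀ A ∈ S, V + 2 ≤ A := by
    rintro A ⟨h, hh, hA⟩
    have := hcon h hh
    unfold Bd at this
    push Not at this
    obtain ⟨n, I, hI, hN, hx, hlt⟩ := this
    have h1 := hA n I hI hN hx
    have h2 : c * ∑ i ∈ Finset.range n, l i * ht f (I i) ≤ ∑ i ∈ Finset.range n, θ i * ht f (I i) := by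
      rw [Finset.mul_sum]
      refine Finset.sum_le_sum fun i _ => ?_
      have : 0 ≤ g i * ht f (I i) := mul_nonneg (hg0' i) (ht_nonneg _ _)
      simp only [hθ]
      nlinarith
    have h3 : c * η < c * ∑ i ∈ Finset.range n, l i * ht f (I i) :=
      mul_lt_mul_of_pos_left hlt hcpos
    linarith
  have hSbdd : BddBelow S := ⟨V + 2, fun A hA => hSlow A hA⟩
  set v := sInf S with hv
  have hvlow : V + 2 ≤ v := le_csInf hSne hSlow
  -- constants
  set ε : ℝ := 1 / (4 * c * (V + 1)) with hε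
  have hεpos : 0 < ε := by positivity
  obtain ⟨δ, hδ, N, hN⟩ := hii (ε / 3) (by positivity)
  set K : ℝ := 3 * C / δ with hK
  have hKpos : 0 < K := by positivity
  set N1 := 2 * N + 2 with hN1
  set τ : ℝ := min 1 (1 / (20 * c * K)) with hτ
  have hτpos : 0 < τ := lt_min one_pos (by positivity)
  have hτ1 : τ ≤ 1 := min_le_left _ _
  have hτ2 : τ ≤ 1 / (20 * c * K) := min_le_right _ _
  obtain ⟨A, ⟨h₀, hh₀, hA⟩, hAv⟩ := exists_lt_of_csInf_lt hSne (show sInf S < v + τ by linarith)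
  have hL1 : 0 ≤ ps l N1 := ps_nonneg hl0' _
  set h : ℝ := min h₀ (1 / (4 * c * (ps l N1 + 1))) with hh
  have hpos : 0 < h := lt_min hh₀ (by positivity)
  have hh2 : h ≤ 1 / (4 * c * (ps l N1 + 1)) := min_le_right _ _
  have hAh : Bd a b θ f h A := hA.mono (min_le_left _ _)
  -- near-optimal families at every level
  have hnear : ∀ h' > 0, ∃ (n : ℕ) (I : ℕ → ℝ × ℝ), (∀ i < n, In a b (I i)) ∧
      (∀ i < n, ∀ j < n, i ≠ j → NO (I i) (I j)) ∧ (∀ i < n, ht f (I i) ≤ h') ∧
      v - τ < ∑ i ∈ Finset.range n, θ i * ht f (I i) := by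
    intro h' hh'
    by_contra hc'
    push Not at hc'
    have : v - τ ∈ S := ⟨h', hh', hc'⟩
    have := csInf_le hSbdd this
    linarith
  obtain ⟨n, I, hI, hIN, hIx, hIs⟩ := hnear h hpos
  obtain ⟨J, hJ1, hJ2, hJ3, hJ4, hJ5⟩ := sorted (a := a) (b := b) f n I hI hIN
  have hJx : ∀ i < n, ht f (J i) ≤ h := fun i hi => by
    obtain ⟨j, hj, hji⟩ := hJ3 i hi
    rw [hji]; exact hIx j hj
  have hJs : v - τ < ∑ i ∈ Finset.range n, θ i * ht f (J i) := hIs.trans_le (hJ5 θ hθa)
  set h' : ℝ := min h (τ / (2 * n * θ 0 + 1)) with hh'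
  have h'pos : 0 < h' := lt_min hpos (by have := hθ0 0; positivity)
  obtain ⟨n', I', hI', hIN', hIx', hIs'⟩ := hnear h' h'pos
  have hmix := mixture hAh hθa hθ0 hJ1 hJ2 hJx hI' hIN' (min_le_left _ _) hIx' h'pos.le
  have herr : 2 * n * θ 0 * h' ≤ τ := by
    have h1 : h' ≤ τ / (2 * n * θ 0 + 1) := min_le_right _ _
    have h2 : 0 ≤ 2 * n * θ 0 := by have := hθ0 0; positivity
    have h3 : h' * (2 * n * θ 0 + 1) ≤ τ := by rwa [le_div_iff₀ (by positivity)] at h1
    nlinarith
  -- the defect of concavity is small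
  have hgain : ∑ i ∈ Finset.range n, (g (i / 2) - g i) * ht f (J i) ≤ 5 * τ := by
    have h1 : ∑ i ∈ Finset.range n, (g (i / 2) - g i) * ht f (J i) ≤
        ∑ i ∈ Finset.range n, (θ (i / 2) - θ i) * ht f (J i) := by
      refine Finset.sum_le_sum fun i _ => mul_le_mul_of_nonneg_right ?_ (ht_nonneg _ _)
      have : l i ≤ l (i / 2) := hl (Nat.div_le_self _ _)
      simp only [hθ]
      nlinarith
    have h2 : ∑ i ∈ Finset.range n, (θ (i / 2) - θ i) * ht f (J i) =
        ∑ i ∈ Finset.range n, θ (i / 2) * ht f (J i) - ∑ i ∈ Finset.range n, θ i * ht f (J i) := by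
      rw [← Finset.sum_sub_distrib]
      exact Finset.sum_congr rfl fun i _ => by ring
    linarith
  -- Abel summation
  set x : ℕ → ℝ := fun i => if i < n then ht f (J i) else 0 with hxdef
  have hx1 : ∀ w : ℕ → ℝ, ∑ i ∈ Finset.range n, w i * ht f (J i) =
      ∑ i ∈ Finset.range n, w i * x i := fun w =>
    Finset.sum_congr rfl fun i hi => by simp [hxdef, Finset.mem_range.1 hi]
  have hx2 : Antitone x := by
    intro i j hij
    simp only [hxdef]
    split_ifs with h1 h2
    · exact hJ4 i h2 j h1 hij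
    · omega
    · exact ht_nonneg _ _
    · exact le_rfl
  have hx0 : x 0 ≤ h := by
    simp only [hxdef]
    split_ifs with h1
    · exact hJx 0 h1
    · exact hpos.le
  have hcmp := compare l (fun i => ε * g i + K * (g (i / 2) - g i)) x (ps l N1) n hx2
    (by simp [hxdef]) (by
      intro k _ _
      have e1 : ∑ i ∈ Finset.range k, (ε * g i + K * (g (i / 2) - g i)) =
          ε * ps g k + K * (ps g ((k + 1) / 2) + ps g (k / 2) - ps g k) := by
        rw [← ps_half]
        unfold ps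
        rw [Finset.sum_add_distrib, Finset.mul_sum, ← Finset.sum_sub_distrib, Finset.mul_sum]
      have e2 : 0 ≤ ps g ((k + 1) / 2) + ps g (k / 2) - ps g k := by
        rw [← ps_half]
        unfold ps
        rw [← Finset.sum_sub_distrib]
        exact Finset.sum_nonneg fun i _ => sub_nonneg.2 (hg (Nat.div_le_self _ _))
      have e3 := ps_nonneg hg0' k
      rw [e1]
      change ps l k ≤ _
      rcases lt_or_ge k N1 with hkN | hkN
      · have := ps_mono hl0' hkN.le
        have : 0 ≤ ε * ps g k + K * (ps g ((k + 1) / 2) + ps g (k / 2) - ps g k) := by positivity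
        linarith
      rcases le_total (ps l k) (ε * ps g k) with hcase | hcase
      · have : 0 ≤ K * (ps g ((k + 1) / 2) + ps g (k / 2) - ps g k) := by positivity
        linarith
      · have h3 := gain hg hg0' hl hl0' hεpos hδ hN hkN hcase
        have h4 : C * ps g k = K * (δ / 3 * ps g k) := by rw [hK]; field_simp
        have h5 : K * (δ / 3 * ps g k) ≤ K * (ps g ((k + 1) / 2) + ps g (k / 2) - ps g k) :=
          mul_le_mul_of_nonneg_left h3 hKpos.le
        have h6 := hLG k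
        have h7 : 0 ≤ ε * ps g k := by positivity
        linarith)
  have hsum2 : ∑ i ∈ Finset.range n, (ε * g i + K * (g (i / 2) - g i)) * x i =
      ε * ∑ i ∈ Finset.range n, g i * x i + K * ∑ i ∈ Finset.range n, (g (i / 2) - g i) * x i := by
    rw [Finset.mul_sum, Finset.mul_sum, ← Finset.sum_add_distrib]
    exact Finset.sum_congr rfl fun i _ => by ring
  have hgV : ∑ i ∈ Finset.range n, g i * x i ≤ V := by
    rw [← hx1 g]; exact hB h n J hJ1 hJ2 hJx
  have hgain' : ∑ i ∈ Finset.range n, (g (i / 2) - g i) * x i ≤ 5 * τ := by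
    rw [← hx1 (fun i => g (i / 2) - g i)]; exact hgain
  -- the final estimate
  have b1 : ps l N1 * x 0 ≤ 1 / (4 * c) := by
    have h1 : ps l N1 * x 0 ≤ ps l N1 * h := mul_le_mul_of_nonneg_left hx0 hL1
    have h2 : h * (4 * c * (ps l N1 + 1)) ≤ 1 := by rwa [le_div_iff₀ (by positivity)] at hh2
    rw [le_div_iff₀ (by positivity)]
    nlinarith
  have b2 : ε * ∑ i ∈ Finset.range n, g i * x i ≤ 1 / (4 * c) := by
    have h1 : ε * ∑ i ∈ Finset.range n, g i * x i ≤ ε * V := mul_le_mul_of_nonneg_left hgV hεpos.le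
    have h2 : ε * V ≤ 1 / (4 * c) := by
      rw [hε, div_mul_eq_mul_div, one_mul, div_le_div_iff₀ (by positivity) (by positivity)]
      nlinarith
    linarith
  have b3 : K * ∑ i ∈ Finset.range n, (g (i / 2) - g i) * x i ≤ 1 / (4 * c) := by
    have h1 : K * ∑ i ∈ Finset.range n, (g (i / 2) - g i) * x i ≤ K * (5 * τ) :=
      mul_le_mul_of_nonneg_left hgain' hKpos.le
    have h2 : K * (5 * τ) ≤ K * (5 * (1 / (20 * c * K))) := by
      apply mul_le_mul_of_nonneg_left _ hKpos.le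
      linarith
    have h3 : K * (5 * (1 / (20 * c * K))) = 1 / (4 * c) := by field_simp; norm_num
    linarith
  have hl4 : ∑ i ∈ Finset.range n, l i * x i ≤ 3 * (1 / (4 * c)) := by
    rw [hsum2] at hcmp
    linarith
  have hfin : ∑ i ∈ Finset.range n, θ i * ht f (J i) ≤ V + 3 / 4 := by
    have h3 : ∑ i ∈ Finset.range n, θ i * ht f (J i) =
        ∑ i ∈ Finset.range n, g i * x i + c * ∑ i ∈ Finset.range n, l i * x i := by
      rw [hx1 θ, Finset.mul_sum, ← Finset.sum_add_distrib]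
      exact Finset.sum_congr rfl fun i _ => by simp only [hθ]; ring
    rw [h3]
    have h4 : c * ∑ i ∈ Finset.range n, l i * x i ≤ c * (3 * (1 / (4 * c))) :=
      mul_le_mul_of_nonneg_left hl4 hcpos.le
    have h5 : c * (3 * (1 / (4 * c))) = 3 / 4 := by field_simp
    linarith
  linarith

end Q170.GB
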