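import Pool.Agent.Q170.GB.Suff

namespace Q170.GB

open Filter Topology

/-- (i) and (ii) force `1/λ_i → 0`. -/
lemma tendsto_zero {g l : ℕ → ℝ} {C : ℝ}
    (hg : Antitone g) (hg0 : ∀ i, 0 < g i) (hl : Antitone l) (hl0 : ∀ i, 0 < l i)
    (hC : 0 < C) (hLG : ∀ n, ps l n ≤ C * ps g n)
    (hii : ∀ ε > 0, ∃ δ > 0, ∃ N, ∀ n ≥ N, ε * ps g n ≤ ps l n → ps g (2 * n) ≤ (2 - δ) * ps g n) :
    Tendsto l atTop (𝓝 0) := by
  by_cases hbd : ∃ ρ > 0, ∀ i, ρ ≤ l i
  · exfalso
    obtain ⟨ρ, hρ, hρl⟩ := hbd
    have hL : ∀ n : ℕ, ρ * n ≤ ps l n := by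
      intro n
      have : ∑ _i ∈ Finset.range n, ρ ≤ ps l n := Finset.sum_le_sum fun i _ => hρl i
      simpa [mul_comm] using this
    have hG : ∀ n : ℕ, ps g n ≤ g 0 * n := by
      intro n
      have : ps g n ≤ ∑ _i ∈ Finset.range n, g 0 := Finset.sum_le_sum fun i _ => hg (Nat.zero_le _)
      simpa [mul_comm] using this
    obtain ⟨δ, hδ, N, hN⟩ := hii (ρ / g 0) (div_pos hρ (hg0 0))
    have h1 : ∀ n ≥ N, ps g (2 * n) ≤ (2 - δ) * ps g n := by
      intro n hn
      refine hN n hn ?_
      rw [div_mul_eq_mul_div, div_le_iff₀ (hg0 0)]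
      have := hL n
      have := hG n
      nlinarith [hg0 0]
    set M := N + 1 with hM
    have hMpos : 0 < ps g M := by
      unfold ps
      exact Finset.sum_pos (fun i _ => hg0 i) ⟨0, by simp [hM]⟩
    have hδ2 : 0 < 2 - δ := by
      have h2 := h1 M (by omega)
      have h3 : ps g M ≤ ps g (2 * M) := ps_mono (fun i => (hg0 i).le) (by omega)
      by_contra hc
      push Not at hc
      have : (2 - δ) * ps g M ≤ 0 := mul_nonpos_of_nonpos_of_nonneg hc hMpos.le
      linarith
    have h2 : ∀ j : ℕ, ps g (2 ^ j * M) ≤ (2 - δ) ^ j * ps g M := by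
      intro j
      induction j with
      | zero => simp
      | succ j ih =>
        have e : 2 ^ (j + 1) * M = 2 * (2 ^ j * M) := by ring
        rw [e]
        have h3 : N ≤ 2 ^ j * M := by
          have : 1 ≤ 2 ^ j := Nat.one_le_two_pow
          nlinarith
        refine (h1 _ h3).trans ?_
        rw [pow_succ]
        have := mul_le_mul_of_nonneg_left ih hδ2.le
        linarith
    -- contradiction with the linear lower bound
    have h3 : ∀ j : ℕ, (ρ * M / (C * ps g M)) ≤ ((2 - δ) / 2) ^ j := by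
      intro j
      have h4 := hL (2 ^ j * M)
      have h5 := hLG (2 ^ j * M)
      have h6 := h2 j
      push_cast at h4
      rw [div_pow, div_le_div_iff₀ (by positivity) (by positivity)]
      have h7 : C * ps g (2 ^ j * M) ≤ C * ((2 - δ) ^ j * ps g M) :=
        mul_le_mul_of_nonneg_left h6 hC.le
      linarith
    have h4 : Tendsto (fun j : ℕ => ((2 - δ) / 2) ^ j) atTop (𝓝 0) :=
      tendsto_pow_atTop_nhds_zero_of_lt_one (by positivity) (by linarith)
    have h5 : 0 < ρ * M / (C * ps g M) := by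
      have : (0 : ℝ) < M := by positivity
      positivity
    have h6 := ge_of_tendsto' h4 h3
    linarith
  · push Not at hbd
    rw [Metric.tendsto_atTop]
    intro ε hε
    obtain ⟨i, hi⟩ := hbd ε hε
    refine ⟨i, fun n hn => ?_⟩
    rw [Real.dist_eq, sub_zero, abs_of_pos (hl0 n)]
    exact (hl hn).trans_lt hi

/-- The sums with respect to the shifted sequences are uniformly small. -/
theorem shifted {a b : ℝ} {g l : ℕ → ℝ} {f : ℝ → ℝ} {V C : ℝ}
    (hg : Antitone g) (hg0 : ∀ i, 0 < g i) (hl : Antitone l) (hl0 : ∀ i, 0 < l i)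
    (hdiv : Tendsto (ps g) atTop atTop)
    (hB : ∀ h, Bd a b g f h V) (hC : 0 < C) (hLG : ∀ n, ps l n ≤ C * ps g n)
    (hii : ∀ ε > 0, ∃ δ > 0, ∃ N, ∀ n ≥ N, ε * ps g n ≤ ps l n → ps g (2 * n) ≤ (2 - δ) * ps g n)
    {η : ℝ} (hη : 0 < η) : ∃ M : ℕ, ∀ m ≥ M, ∀ h, Bd a b (fun i => l (i + m)) f h η := by
  classical
  have hV : 0 ≤ V := (hB 1).nonneg
  have hl0' : ∀ i, 0 ≤ l i := fun i => (hl0 i).le
  obtain ⟨h, hh, hfine⟩ := fine hg hg0 hl hl0 hB hC hLG hii (half_pos hη)
  obtain ⟨K, hK⟩ := (hdiv.eventually_gt_atTop (V / h)).exists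
  have htend := tendsto_zero hg hg0 hl hl0 hC hLG hii
  have h1 : Tendsto (fun m => K * (l m * (V / g 0))) atTop (𝓝 0) := by
    have := (htend.mul_const (V / g 0)).const_mul (K : ℝ)
    simpa using this
  obtain ⟨M, hM⟩ := (h1.eventually_le_const (half_pos hη)).exists_forall_of_atTop
  refine ⟨M, fun m hm H n I hI hN _ => ?_⟩
  have hMm := hM m hm
  set T := (Finset.range n).filter (fun i => h < ht f (I i)) with hT
  -- the number of large intervals
  have hcard : T.card ≤ K := by
    by_contra hc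
    push Not at hc
    set e := T.equivFin with he
    set r : ℕ → ℕ := fun i => if hi : i ∈ T then (e ⟨i, hi⟩ : ℕ) else 0 with hr
    have hri : ∀ i (hi : i ∈ T), r i = e ⟨i, hi⟩ := fun i hi => by simp [hr, hi]
    have hTn : ∀ i ∈ T, i < n := fun i hi => by
      have := (Finset.mem_filter.1 hi).1; simpa using this
    have h2 := (hB (V / g 0 + 1)).rank hg T I r (by
      intro i hi j hj hij
      rw [hri i hi, hri j hj] at hij
      have := e.injective (Fin.ext hij)
      simpa using this) (fun i hi => hI i (hTn i hi))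
      (fun i hi j hj hij => hN i (hTn i hi) j (hTn j hj) hij) (by
      intro i hi
      have h3 := hB (ht f (I i)) 1 (fun _ => I i) (fun _ _ => hI i (hTn i hi))
        (by intro i hi j hj hij; omega) (fun _ _ => le_rfl)
      simp at h3
      have : ht f (I i) ≤ V / g 0 := by rw [le_div_iff₀ (hg0 0)]; linarith
      linarith)
    have h4 : ∑ i ∈ T, g (r i) * h ≤ ∑ i ∈ T, g (r i) * ht f (I i) :=
      Finset.sum_le_sum fun i hi => mul_le_mul_of_nonneg_left
        (Finset.mem_filter.1 hi).2.le (hg0 _).le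
    have h5 : ∑ i ∈ T, g (r i) = ps g T.card := by
      unfold ps
      rw [Finset.sum_range, ← Finset.sum_coe_sort T]
      refine Finset.sum_equiv e (by simp) ?_
      rintro ⟨i, hi⟩ _
      simp only
      rw [hri i hi]
    rw [← Finset.sum_mul, h5] at h4
    have h6 : ps g K ≤ ps g T.card := ps_mono (fun i => (hg0 i).le) hc.le
    rw [div_lt_iff₀ hh] at hK
    nlinarith
  have hsplit : ∑ i ∈ Finset.range n, l (i + m) * ht f (I i) =
      ∑ i ∈ T, l (i + m) * ht f (I i) +
      ∑ i ∈ (Finset.range n).filter (fun i => ¬ h < ht f (I i)), l (i + m) * ht f (I i) := by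
    rw [hT, Finset.sum_filter_add_sum_filter_not]
  have hbig : ∑ i ∈ T, l (i + m) * ht f (I i) ≤ K * (l m * (V / g 0)) := by
    calc ∑ i ∈ T, l (i + m) * ht f (I i) ≤ ∑ _i ∈ T, l m * (V / g 0) := by
          refine Finset.sum_le_sum fun i hi => ?_
          have hi' : i < n := by have := (Finset.mem_filter.1 hi).1; simpa using this
          have h3 := hB (ht f (I i)) 1 (fun _ => I i) (fun _ _ => hI i hi')
            (by intro i hi j hj hij; omega) (fun _ _ => le_rfl)
          simp at h3
          have : ht f (I i) ≤ V / g 0 := by rw [le_div_iff₀ (hg0 0)]; linarith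
          exact mul_le_mul (hl (by omega)) this (ht_nonneg _ _) (hl0' _)
      _ = T.card * (l m * (V / g 0)) := by rw [Finset.sum_const, nsmul_eq_mul]
      _ ≤ K * (l m * (V / g 0)) := by
          refine mul_le_mul_of_nonneg_right (by exact_mod_cast hcard) ?_
          exact mul_nonneg (hl0' _) (div_nonneg hV (hg0 0).le)
  have hsmall : ∑ i ∈ (Finset.range n).filter (fun i => ¬ h < ht f (I i)),
      l (i + m) * ht f (I i) ≤ η / 2 := by
    have h3 := hfine.rank hl ((Finset.range n).filter (fun i => ¬ h < ht f (I i))) I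
      (fun i => i + m) (by intro i _ j _ hij; simpa using hij)
      (fun i hi => hI i (by have := (Finset.mem_filter.1 hi).1; simpa using this))
      (fun i hi j hj hij => hN i (by have := (Finset.mem_filter.1 hi).1; simpa using this) j
        (by have := (Finset.mem_filter.1 hj).1; simpa using this) hij)
      (fun i hi => not_lt.1 (Finset.mem_filter.1 hi).2)
    exact h3
  simp only
  rw [hsplit]
  linarith

end Q170.GB
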